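import Mathlib
import Pool.Agent.H710R2.DP.VTasks
import Pool.Agent.H804R2.DP.Ulim

/-!
Close von Neumann algebras: basic lemmas.
-/

open scoped ComplexOrder InnerProductSpace ComplexConjugate
open Finset Filter Topology

noncomputable section

namespace H203R3.CC

open H759R2.Kad H710R2.DP

variable {H : Type} [NormedAddCommGroup H] [InnerProductSpace ℂ H] [CompleteSpace H]

theorem mem_of_comm {N : VonNeumannAlgebra H} {x : H →L[ℂ] H}
    (h : ∀ y ∈ N.commutant, y * x = x * y) : x ∈ N := by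
  rw [← VonNeumannAlgebra.commutant_commutant N, VonNeumannAlgebra.mem_commutant_iff]
  exact h

theorem comm_of_mem {N : VonNeumannAlgebra H} {x y : H →L[ℂ] H}
    (hy : y ∈ N.commutant) (hx : x ∈ N) : y * x = x * y := by
  rw [VonNeumannAlgebra.mem_commutant_iff] at hy
  exact (hy x hx).symm

theorem smul_mem' {N : VonNeumannAlgebra H} {x : H →L[ℂ] H} (c : ℂ) (hx : x ∈ N) :
    c • x ∈ N := by
  apply mem_of_comm
  intro y hy
  rw [mul_smul_comm, smul_mul_assoc, comm_of_mem hy hx]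

/-- von Neumann algebras are norm closed. -/
theorem mem_of_near {N : VonNeumannAlgebra H} {x : H →L[ℂ] H}
    (h : ∀ ε : ℝ, 0 < ε → ∃ y ∈ N, ‖x - y‖ ≤ ε) : x ∈ N := by
  apply mem_of_comm
  intro z hz
  rw [← sub_eq_zero, ← norm_le_zero_iff]
  refine le_of_forall_pos_le_add fun ε hε => ?_
  obtain ⟨y, hy, hxy⟩ := h (ε / (2 * (‖z‖ + 1))) (by positivity)
  have e1 : z * x - x * z = z * (x - y) - (x - y) * z := by
    rw [mul_sub, sub_mul, comm_of_mem hz hy]; abel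
  rw [e1, zero_add]
  calc ‖z * (x - y) - (x - y) * z‖ ≤ ‖z * (x - y)‖ + ‖(x - y) * z‖ := norm_sub_le _ _
    _ ≤ ‖z‖ * ‖x - y‖ + ‖x - y‖ * ‖z‖ := add_le_add (norm_mul_le _ _) (norm_mul_le _ _)
    _ = 2 * ‖z‖ * ‖x - y‖ := by ring
    _ ≤ 2 * (‖z‖ + 1) * (ε / (2 * (‖z‖ + 1))) := by
        apply mul_le_mul _ hxy (norm_nonneg _) (by positivity)
        linarith
    _ = ε := by field_simp

/-- Inverse square roots near the identity. -/
theorem isqrt (a : H →L[ℂ] H) (ha : star a = a) (ε : ℝ) (hε : ε ≤ 1 / 2)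
    (h : ‖a - 1‖ ≤ ε) : ∃ b : H →L[ℂ] H, star b = b ∧ b * a * b = 1 ∧ ‖b - 1‖ ≤ ε ∧
      (∀ y, y * a = a * y → y * b = b * y) := by
  have ha' : IsSelfAdjoint a := ha
  have hε0 : 0 ≤ ε := (norm_nonneg _).trans h
  have hsp : ∀ t ∈ spectrum ℝ a, |t - 1| ≤ ε := by
    intro t ht
    have e1 : cfc (fun s : ℝ => s - 1) a = a - 1 := by
      rw [cfc_sub (fun s : ℝ => s) (fun _ => (1 : ℝ)) a, cfc_id' ℝ a, cfc_const_one ℝ a]
    have := norm_apply_le_norm_cfc (fun s : ℝ => s - 1) a ht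
    rw [e1] at this
    exact this.trans h
  have hpos : ∀ t ∈ spectrum ℝ a, (1 : ℝ) / 2 ≤ t := by
    intro t ht
    have := abs_le.1 (hsp t ht)
    linarith
  have hcont : ContinuousOn (fun t : ℝ => (Real.sqrt t)⁻¹) (spectrum ℝ a) := by
    apply ContinuousOn.inv₀ Real.continuous_sqrt.continuousOn
    intro t ht
    have := hpos t ht
    exact (Real.sqrt_pos.2 (by linarith)).ne'
  refine ⟨cfc (fun t : ℝ => (Real.sqrt t)⁻¹) a, ?_, ?_, ?_, ?_⟩
  · exact (cfc_predicate (fun t : ℝ => (Real.sqrt t)⁻¹) a : IsSelfAdjoint _)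
  · have e1 : cfc (fun t : ℝ => (Real.sqrt t)⁻¹) a * a * cfc (fun t : ℝ => (Real.sqrt t)⁻¹) a =
        cfc (fun t : ℝ => ((Real.sqrt t)⁻¹ * t) * (Real.sqrt t)⁻¹) a := by
      rw [cfc_mul (fun t : ℝ => (Real.sqrt t)⁻¹ * t) (fun t : ℝ => (Real.sqrt t)⁻¹) a
        (hcont.mul continuousOn_id) hcont,
        cfc_mul (fun t : ℝ => (Real.sqrt t)⁻¹) (fun t : ℝ => t) a hcont continuousOn_id,
        cfc_id' ℝ a]
    rw [e1, ← cfc_const_one ℝ a]
    apply cfc_congr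
    intro t ht
    have h1 := hpos t ht
    have h2 : 0 < Real.sqrt t := Real.sqrt_pos.2 (by linarith)
    have h3 : Real.sqrt t * Real.sqrt t = t := Real.mul_self_sqrt (by linarith)
    simp only
    field_simp
    nlinarith
  · have e1 : cfc (fun t : ℝ => (Real.sqrt t)⁻¹) a - 1 =
        cfc (fun t : ℝ => (Real.sqrt t)⁻¹ - 1) a := by
      rw [cfc_sub (fun t : ℝ => (Real.sqrt t)⁻¹) (fun _ => (1 : ℝ)) a hcont continuousOn_const,
        cfc_const_one ℝ a]
    rw [e1]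
    apply norm_cfc_le hε0
    intro t ht
    have h1 := hpos t ht
    have h0 := abs_le.1 (hsp t ht)
    have h2 : 0 < Real.sqrt t := Real.sqrt_pos.2 (by linarith)
    have h3 : Real.sqrt t * Real.sqrt t = t := Real.mul_self_sqrt (by linarith)
    have h4 : (1 : ℝ) / 2 ≤ Real.sqrt t := by
      rw [show (1 : ℝ) / 2 = Real.sqrt ((1 / 2) ^ 2) by
        rw [Real.sqrt_sq (by norm_num)]]
      exact Real.sqrt_le_sqrt (by linarith)
    rw [Real.norm_eq_abs, abs_le]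
    set s := Real.sqrt t with hs
    constructor
    · rw [le_sub_iff_add_le, ← one_div, le_div_iff₀ h2]
      nlinarith
    · rw [sub_le_iff_le_add, ← one_div, div_le_iff₀ h2]
      -- 1 ≤ (ε + 1) s, with s^2 ≥ 1 - ε
      by_contra hc
      push Not at hc
      have h5 : (ε + 1) * s * ((ε + 1) * s) < 1 := by
        have : 0 ≤ (ε + 1) * s := by positivity
        nlinarith
      have h6 : (ε + 1) * (ε + 1) * t < 1 := by rw [← h3]; nlinarith
      nlinarith [mul_nonneg hε0 (sub_nonneg.2 hε), mul_nonneg (mul_nonneg hε0 hε0) (sub_nonneg.2 hε)]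
  · intro y hy
    have : Commute a y := hy.symm
    exact (this.cfc_real _).symm

theorem norm_unit_le {w : H →L[ℂ] H} (h : star w * w = 1) : ‖w‖ ≤ 1 := by
  have h1 : ‖star w * w‖ = ‖w‖ * ‖w‖ := CStarRing.norm_star_mul_self
  rw [h] at h1
  have h2 : ‖(1 : H →L[ℂ] H)‖ ≤ 1 := ContinuousLinearMap.norm_id_le
  nlinarith [norm_nonneg w]

/-- Unitary part of an operator near the identity. -/
theorem upart (T : H →L[ℂ] H) (ε : ℝ) (hε : ε ≤ 1 / 8) (h : ‖T - 1‖ ≤ ε) :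
    ∃ w b : H →L[ℂ] H, w = T * b ∧ star b = b ∧ b * (star T * T) * b = 1 ∧ ‖b - 1‖ ≤ 3 * ε ∧
      (∀ y, y * (star T * T) = (star T * T) * y → y * b = b * y) ∧
      star w * w = 1 ∧ w * star w = 1 ∧ ‖w - 1‖ ≤ 5 * ε := by
  have hε0 : 0 ≤ ε := (norm_nonneg _).trans h
  have h1n : ‖(1 : H →L[ℂ] H)‖ ≤ 1 := ContinuousLinearMap.norm_id_le
  have hT : ‖T‖ ≤ 1 + ε := by
    calc ‖T‖ = ‖(T - 1) + 1‖ := by rw [sub_add_cancel]
      _ ≤ ‖T - 1‖ + ‖(1 : H →L[ℂ] H)‖ := norm_add_le _ _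
      _ ≤ 1 + ε := by linarith
  have hTs : ‖star T - 1‖ ≤ ε := by
    have : star T - 1 = star (T - 1) := by rw [star_sub, star_one]
    rw [this, norm_star]; exact h
  have hQ : ‖star T * T - 1‖ ≤ 3 * ε := by
    have e1 : star T * T - 1 = star T * (T - 1) + (star T - 1) := by
      rw [mul_sub, mul_one]; abel
    rw [e1]
    calc ‖star T * (T - 1) + (star T - 1)‖ ≤ ‖star T‖ * ‖T - 1‖ + ‖star T - 1‖ :=
          (norm_add_le _ _).trans (add_le_add (norm_mul_le _ _) le_rfl)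
      _ ≤ (1 + ε) * ε + ε := by
          rw [norm_star]
          gcongr
      _ ≤ 3 * ε := by nlinarith
  obtain ⟨b, hb1, hb2, hb3, hb4⟩ := isqrt (star T * T) (by rw [star_mul, star_star]) (3 * ε)
    (by linarith) hQ
  have hw1 : star (T * b) * (T * b) = 1 := by
    rw [star_mul, hb1]
    calc b * star T * (T * b) = b * (star T * T) * b := by simp only [mul_assoc]
      _ = 1 := hb2
  have hb : ‖b‖ ≤ 1 + 3 * ε := by
    calc ‖b‖ = ‖(b - 1) + 1‖ := by rw [sub_add_cancel]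
      _ ≤ ‖b - 1‖ + ‖(1 : H →L[ℂ] H)‖ := norm_add_le _ _
      _ ≤ 1 + 3 * ε := by linarith
  have hwn : ‖T * b - 1‖ ≤ 5 * ε := by
    have e1 : T * b - 1 = (T - 1) * b + (b - 1) := by rw [sub_mul, one_mul]; abel
    rw [e1]
    calc ‖(T - 1) * b + (b - 1)‖ ≤ ‖T - 1‖ * ‖b‖ + ‖b - 1‖ :=
          (norm_add_le _ _).trans (add_le_add (norm_mul_le _ _) le_rfl)
      _ ≤ ε * (1 + 3 * ε) + 3 * ε := by gcongr
      _ ≤ 5 * ε := by nlinarith
  refine ⟨T * b, b, rfl, hb1, hb2, hb3, hb4, hw1, ?_, hwn⟩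
  -- invertibility
  have hlt : ‖1 - T * b‖ < 1 := by
    rw [norm_sub_rev]; linarith
  have hu : IsUnit (T * b) := by
    have := isUnit_one_sub_of_norm_lt_one hlt
    rwa [sub_sub_cancel] at this
  obtain ⟨u, hu⟩ := hu
  have : star (T * b) = ↑u⁻¹ := by
    calc star (T * b) = star (T * b) * (u * ↑u⁻¹) := by rw [Units.mul_inv, mul_one]
      _ = (star (T * b) * (T * b)) * ↑u⁻¹ := by rw [hu, ← mul_assoc]
      _ = ↑u⁻¹ := by rw [hw1, one_mul]
  rw [this, ← hu, Units.mul_inv]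

end H203R3.CC
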