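import Mathlib
import Pool.Agent.H203R3.CC.Basic
import Pool.Agent.H759R2.Kad.Inner

/-!
Commutants of close von Neumann algebras are close.
-/

open scoped ComplexOrder InnerProductSpace ComplexConjugate
open Finset Filter Topology

noncomputable section

namespace H203R3.CC

open H759R2.Kad H710R2.DP

variable {H : Type} [NormedAddCommGroup H] [InnerProductSpace ℂ H] [CompleteSpace H]

/-- Near containment. -/
def Nr (M N : VonNeumannAlgebra H) (γ : ℝ) : Prop := ∀ x ∈ M, ∃ y ∈ N, ‖x - y‖ ≤ γ * ‖x‖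

/-- The constant. -/
def KK : ℝ := 5184 * 6 ^ 25 * 8 ^ 77

theorem KK_pos : 0 < KK := by unfold KK; positivity

theorem Nr.comm {M N : VonNeumannAlgebra H} {γ : ℝ} (hγ : 0 ≤ γ) (h : Nr M N γ) :
    Nr N.commutant M.commutant (KK * (2 * γ)) := by
  intro T hT
  let A := M.toStarSubalgebra
  have hbd : ∀ a : A, ‖(a : H →L[ℂ] H) * T - T * (a : H →L[ℂ] H)‖ ≤ 2 * γ * ‖T‖ * ‖a‖ := by
    intro a
    obtain ⟨y, hy, hay⟩ := h (a : H →L[ℂ] H) a.2
    have e1 : (a : H →L[ℂ] H) * T - T * (a : H →L[ℂ] H) =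
        ((a : H →L[ℂ] H) - y) * T - T * ((a : H →L[ℂ] H) - y) := by
      rw [sub_mul, mul_sub, comm_of_mem hT hy]; abel
    rw [e1]
    calc ‖((a : H →L[ℂ] H) - y) * T - T * ((a : H →L[ℂ] H) - y)‖
        ≤ ‖(a : H →L[ℂ] H) - y‖ * ‖T‖ + ‖T‖ * ‖(a : H →L[ℂ] H) - y‖ :=
          (norm_sub_le _ _).trans (add_le_add (norm_mul_le _ _) (norm_mul_le _ _))
      _ ≤ (γ * ‖(a : H →L[ℂ] H)‖) * ‖T‖ + ‖T‖ * (γ * ‖(a : H →L[ℂ] H)‖) := by gcongr
      _ = 2 * γ * ‖T‖ * ‖a‖ := by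
          have : ‖(a : H →L[ℂ] H)‖ = ‖a‖ := rfl
          rw [this]; ring
  let δ : A →L[ℂ] (H →L[ℂ] H) := LinearMap.mkContinuous
    { toFun := fun a => (a : H →L[ℂ] H) * T - T * (a : H →L[ℂ] H)
      map_add' := fun a b => by
        have : ((a + b : A) : H →L[ℂ] H) = (a : H →L[ℂ] H) + (b : H →L[ℂ] H) := rfl
        rw [this, add_mul, mul_add]; abel
      map_smul' := fun c a => by
        have : ((c • a : A) : H →L[ℂ] H) = c • (a : H →L[ℂ] H) := rfl
        rw [this, smul_mul_assoc, mul_smul_comm, ← smul_sub]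
        rfl } (2 * γ * ‖T‖) hbd
  let π : A →⋆ₙₐ[ℂ] (H →L[ℂ] H) :=
    { toFun := fun a => (a : H →L[ℂ] H)
      map_smul' := fun _ _ => rfl
      map_zero' := rfl
      map_add' := fun _ _ => rfl
      map_mul' := fun _ _ => rfl
      map_star' := fun _ => rfl }
  have hδ : ∀ a, δ a = (a : H →L[ℂ] H) * T - T * (a : H →L[ℂ] H) := fun a => rfl
  have hπ : ∀ a, π a = (a : H →L[ℂ] H) := fun a => rfl
  obtain ⟨S, hS1, hS2⟩ := inner_bound A H π δ (by
    intro a b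
    rw [hδ, hδ, hδ, hπ, hπ]
    have : ((a * b : A) : H →L[ℂ] H) = (a : H →L[ℂ] H) * (b : H →L[ℂ] H) := rfl
    rw [this]
    simp only [mul_sub, sub_mul, mul_assoc]
    abel)
  refine ⟨T - S, ?_, ?_⟩
  · rw [VonNeumannAlgebra.mem_commutant_iff]
    intro g hg
    have h1 := hS2 ⟨g, hg⟩
    rw [hδ, hπ] at h1
    simp only at h1
    rw [mul_sub, sub_mul]
    have h2 : g * T - T * g - (g * S - S * g) = 0 := by rw [h1]; exact sub_self _
    have h3 : g * T - g * S - (T * g - S * g) = 0 := by rw [← h2]; abel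
    exact sub_eq_zero.1 h3
  · rw [sub_sub_cancel]
    refine hS1.trans ?_
    have h1 : ‖δ‖ ≤ 2 * γ * ‖T‖ := LinearMap.mkContinuous_norm_le _ (by positivity) _
    change KK * ‖δ‖ ≤ _
    calc KK * ‖δ‖ ≤ KK * (2 * γ * ‖T‖) := by
          have := KK_pos.le
          gcongr
      _ = KK * (2 * γ) * ‖T‖ := by ring

end H203R3.CC
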