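import Mathlib

/-!
Definitions: II₁ factors with their traces, and the coupling constant.
-/

open scoped ComplexOrder InnerProductSpace ComplexConjugate ENNReal

noncomputable section

namespace H203R3.CC

variable {H : Type} [NormedAddCommGroup H] [InnerProductSpace ℂ H] [CompleteSpace H]

/-- The functional `x ↦ ∑ₙ ⟪ξₙ, x ξₙ⟫` on the bounded operators. -/
def trF (ξ : ℕ → H) (x : H →L[ℂ] H) : ℂ := ∑' n, ⟪ξ n, x (ξ n)⟫_ℂ

/-- `M` is a II₁ factor, and `trF ξ` restricts to its faithful normal tracial state: the centre is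
trivial, there is no minimal projection, and `trF ξ` is a faithful tracial state on `M`. -/
structure IsII1 (M : VonNeumannAlgebra H) (ξ : ℕ → H) : Prop where
  factor : ∀ z ∈ M, (∀ x ∈ M, z * x = x * z) → ∃ c : ℂ, z = c • (1 : H →L[ℂ] H)
  diffuse : ∀ p ∈ M, star p = p → p * p = p → p ≠ 0 →
    ∃ q ∈ M, star q = q ∧ q * q = q ∧ p * q = q ∧ q ≠ 0 ∧ q ≠ p
  norm : HasSum (fun n => ‖ξ n‖ ^ 2) 1
  tracial : ∀ x ∈ M, ∀ y ∈ M, trF ξ (x * y) = trF ξ (y * x)
  faithful : ∀ x ∈ M, trF ξ (star x * x) = 0 → x = 0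

/-- The `pᵢ` are projections of `M`, and `(yᵢ pᵢ)ᵢ ↦ ∑ᵢ yᵢ ζᵢ` is an isometric `M`-linear embedding
of the direct sum of the left `M`-modules `L²(M) pᵢ` in `H`. -/
structure IsEmb (M : VonNeumannAlgebra H) (ξ : ℕ → H) {n : ℕ} (p : Fin n → (H →L[ℂ] H))
    (ζ : Fin n → H) : Prop where
  mem : ∀ i, p i ∈ M
  adj : ∀ i, star (p i) = p i
  idem : ∀ i, p i * p i = p i
  inner : ∀ i j, ∀ x ∈ M, ⟪ζ j, x (ζ i)⟫_ℂ = if i = j then trF ξ (x * p i) else 0

/-- The Murray–von Neumann dimension of the left `M`-module `H`: the supremum of `∑ᵢ τ(pᵢ)` over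
all finite direct sums of modules `L²(M) pᵢ` that embed in `H`. -/
def coupling (M : VonNeumannAlgebra H) (ξ : ℕ → H) : ℝ≥0∞ :=
  ⨆ (n : ℕ) (p : Fin n → (H →L[ℂ] H)) (ζ : Fin n → H) (_ : IsEmb M ξ p ζ),
    ENNReal.ofReal (∑ i, (trF ξ (p i)).re)

end H203R3.CC
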