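import Mathlib
import Pool.Agent.H203R3.CC.Basic

/-!
Means over Boolean groups of symmetries.
-/

open scoped ComplexOrder InnerProductSpace ComplexConjugate
open Finset Filter Topology

noncomputable section

namespace H203R3.CC

open H759R2.Kad H710R2.DP

variable {H : Type} [NormedAddCommGroup H] [InnerProductSpace ℂ H] [CompleteSpace H]

/-- A Boolean group of symmetries. -/
structure BG (G : Set (H →L[ℂ] H)) : Prop where
  one : 1 ∈ G
  mul : ∀ g ∈ G, ∀ h ∈ G, g * h ∈ G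
  comm : ∀ g ∈ G, ∀ h ∈ G, g * h = h * g
  adj : ∀ g ∈ G, star g = g
  sq : ∀ g ∈ G, g * g = 1

theorem BG.norm_le {G : Set (H →L[ℂ] H)} (hG : BG G) {g : H →L[ℂ] H} (hg : g ∈ G) : ‖g‖ ≤ 1 :=
  norm_unit_le (by rw [hG.adj g hg, hG.sq g hg])

/-- Conjugates of Boolean groups. -/
theorem BG.conj {G : Set (H →L[ℂ] H)} (hG : BG G) {w : H →L[ℂ] H} (h1 : star w * w = 1)
    (h2 : w * star w = 1) : BG ((fun g => star w * g * w) '' G) := by
  have key : ∀ a b : H →L[ℂ] H, star w * a * w * (star w * b * w) = star w * (a * b) * w := by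
    intro a b
    calc star w * a * w * (star w * b * w) = star w * a * (w * star w) * b * w := by
          simp only [mul_assoc]
      _ = star w * (a * b) * w := by rw [h2, mul_one]; simp only [mul_assoc]
  refine ⟨⟨1, hG.one, by simp [h1]⟩, ?_, ?_, ?_, ?_⟩
  · rintro _ ⟨g, hg, rfl⟩ _ ⟨h, hh, rfl⟩
    exact ⟨g * h, hG.mul g hg h hh, (key g h).symm⟩
  · rintro _ ⟨g, hg, rfl⟩ _ ⟨h, hh, rfl⟩
    simp only [key, hG.comm g hg h hh]
  · rintro _ ⟨g, hg, rfl⟩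
    simp only [star_mul, star_star, hG.adj g hg, mul_assoc]
  · rintro _ ⟨g, hg, rfl⟩
    simp only [key, hG.sq g hg, mul_one, h1]

/-- Finite subgroups. -/
theorem BG.fin {G : Set (H →L[ℂ] H)} (hG : BG G) (s : Finset (H →L[ℂ] H)) :
    ∃ F : Finset (H →L[ℂ] H), (∀ g ∈ s, g ∈ G → g ∈ F) ∧ (∀ g ∈ F, g ∈ G) ∧ 1 ∈ F ∧
      ∀ g ∈ F, ∀ h ∈ F, g * h ∈ F := by
  classical
  induction s using Finset.induction_on with
  | empty =>
    refine ⟨{1}, by simp, ?_, by simp, by simp⟩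
    intro g hg
    rw [Finset.mem_singleton] at hg
    rw [hg]; exact hG.one
  | insert a s ha ih =>
    obtain ⟨F, h1, h2, h3, h4⟩ := ih
    by_cases haG : a ∈ G
    · refine ⟨F ∪ F.image (fun f => a * f), ?_, ?_, ?_, ?_⟩
      · intro g hg hgG
        rw [Finset.mem_insert] at hg
        rcases hg with rfl | hg
        · apply Finset.mem_union_right
          exact Finset.mem_image.2 ⟨1, h3, mul_one _⟩
        · exact Finset.mem_union_left _ (h1 g hg hgG)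
      · intro g hg
        rcases Finset.mem_union.1 hg with hg | hg
        · exact h2 g hg
        · obtain ⟨f, hf, rfl⟩ := Finset.mem_image.1 hg
          exact hG.mul _ haG _ (h2 f hf)
      · exact Finset.mem_union_left _ h3
      · intro g hg h hh
        rcases Finset.mem_union.1 hg with hg | hg <;> rcases Finset.mem_union.1 hh with hh | hh
        · exact Finset.mem_union_left _ (h4 g hg h hh)
        · obtain ⟨f, hf, rfl⟩ := Finset.mem_image.1 hh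
          apply Finset.mem_union_right
          refine Finset.mem_image.2 ⟨g * f, h4 g hg f hf, ?_⟩
          rw [← mul_assoc, hG.comm a haG g (h2 g hg), mul_assoc]
        · obtain ⟨f, hf, rfl⟩ := Finset.mem_image.1 hg
          apply Finset.mem_union_right
          exact Finset.mem_image.2 ⟨f * h, h4 f hf h hh, by rw [mul_assoc]⟩
        · obtain ⟨f, hf, rfl⟩ := Finset.mem_image.1 hg
          obtain ⟨f', hf', rfl⟩ := Finset.mem_image.1 hh
          apply Finset.mem_union_left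
          have : a * f * (a * f') = f * f' := by
            calc a * f * (a * f') = (a * f) * a * f' := by rw [mul_assoc, mul_assoc, mul_assoc]
              _ = (f * a) * a * f' := by rw [hG.comm a haG f (h2 f hf)]
              _ = f * (a * a) * f' := by simp only [mul_assoc]
              _ = f * f' := by rw [hG.sq a haG, mul_one]
          rw [this]
          exact h4 f hf f' hf'
    · refine ⟨F, ?_, h2, h3, h4⟩
      intro g hg hgG
      rw [Finset.mem_insert] at hg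
      rcases hg with rfl | hg
      · exact absurd hgG haG
      · exact h1 g hg hgG

/-- Finite subgroups containing the elements of a finite set. -/
def BG.cl {G : Set (H →L[ℂ] H)} (hG : BG G) (s : Finset (H →L[ℂ] H)) : Finset (H →L[ℂ] H) :=
  (hG.fin s).choose

theorem BG.cl_spec {G : Set (H →L[ℂ] H)} (hG : BG G) (s : Finset (H →L[ℂ] H)) :
    (∀ g ∈ s, g ∈ G → g ∈ hG.cl s) ∧ (∀ g ∈ hG.cl s, g ∈ G) ∧ 1 ∈ hG.cl s ∧
      ∀ g ∈ hG.cl s, ∀ h ∈ hG.cl s, g * h ∈ hG.cl s := (hG.fin s).choose_spec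

/-- Finite averages. -/
def avg (F : Finset (H →L[ℂ] H)) (f : (H →L[ℂ] H) → (H →L[ℂ] H)) : H →L[ℂ] H :=
  (F.card : ℂ)⁻¹ • ∑ h ∈ F, f h

/-- The ultrafilter. -/
def UF (H : Type) [NormedAddCommGroup H] [InnerProductSpace ℂ H] [CompleteSpace H] :
    Ultrafilter (Finset (H →L[ℂ] H)) := Ultrafilter.of atTop

/-- `S` is the mean of `f` over `G`. -/
def IsM {G : Set (H →L[ℂ] H)} (hG : BG G) (f : (H →L[ℂ] H) → (H →L[ℂ] H)) (S : H →L[ℂ] H) :
    Prop :=
  ∀ ξ η : H, Tendsto (fun s => ⟪η, avg (hG.cl s) f ξ⟫_ℂ) (UF H) (𝓝 ⟪η, S ξ⟫_ℂ)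

variable {G : Set (H →L[ℂ] H)} (hG : BG G)

theorem card_cl_pos (s : Finset (H →L[ℂ] H)) : 0 < (hG.cl s).card :=
  Finset.card_pos.2 ⟨1, (hG.cl_spec s).2.2.1⟩

theorem norm_avg_le {F : Finset (H →L[ℂ] H)} (hF : 0 < F.card)
    {f : (H →L[ℂ] H) → (H →L[ℂ] H)} {d : ℝ} (h : ∀ g ∈ F, ‖f g‖ ≤ d) : ‖avg F f‖ ≤ d := by
  unfold avg
  rw [norm_smul, norm_inv, Complex.norm_natCast]
  have h1 : ‖∑ g ∈ F, f g‖ ≤ F.card * d := by
    refine (norm_sum_le _ _).trans ?_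
    refine (Finset.sum_le_sum h).trans ?_
    rw [Finset.sum_const, nsmul_eq_mul]
  have h2 : (0 : ℝ) < F.card := by exact_mod_cast hF
  calc (F.card : ℝ)⁻¹ * ‖∑ g ∈ F, f g‖ ≤ (F.card : ℝ)⁻¹ * (F.card * d) := by gcongr
    _ = d := by field_simp

theorem IsM.ex {f : (H →L[ℂ] H) → (H →L[ℂ] H)} {d : ℝ} (h : ∀ g ∈ G, ‖f g‖ ≤ d) :
    ∃ S, ‖S‖ ≤ d ∧ IsM hG f S := by
  obtain ⟨S, hS, hS'⟩ := dp_ulim H (Finset (H →L[ℂ] H)) (UF H) (fun s => avg (hG.cl s) f) d
    (fun s => norm_avg_le (card_cl_pos hG s) fun g hg => h g ((hG.cl_spec s).2.1 g hg))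
  exact ⟨S, hS, hS'⟩

variable {hG}

theorem IsM.uniq {f : (H →L[ℂ] H) → (H →L[ℂ] H)} {S T : H →L[ℂ] H} (h1 : IsM hG f S)
    (h2 : IsM hG f T) : S = T := by
  ext ξ
  apply ext_inner_left ℂ
  intro η
  exact tendsto_nhds_unique (h1 ξ η) (h2 ξ η)

theorem avg_congr {F : Finset (H →L[ℂ] H)} {f f' : (H →L[ℂ] H) → (H →L[ℂ] H)}
    (h : ∀ g ∈ F, f g = f' g) : avg F f = avg F f' := by
  unfold avg
  rw [Finset.sum_congr rfl h]

theorem IsM.congr {f f' : (H →L[ℂ] H) → (H →L[ℂ] H)} {S : H →L[ℂ] H} (h1 : IsM hG f S)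
    (h : ∀ g ∈ G, f g = f' g) : IsM hG f' S := by
  intro ξ η
  have : (fun s => ⟪η, avg (hG.cl s) f' ξ⟫_ℂ) = fun s => ⟪η, avg (hG.cl s) f ξ⟫_ℂ := by
    funext s
    rw [avg_congr fun g hg => h g ((hG.cl_spec s).2.1 g hg)]
  rw [this]
  exact h1 ξ η

theorem IsM.norm_le {f : (H →L[ℂ] H) → (H →L[ℂ] H)} {S : H →L[ℂ] H} (h1 : IsM hG f S) {d : ℝ}
    (h : ∀ g ∈ G, ‖f g‖ ≤ d) : ‖S‖ ≤ d := by
  obtain ⟨T, hT, hT'⟩ := IsM.ex hG h
  rw [h1.uniq hT']; exact hT

theorem IsM.add {f f' : (H →L[ℂ] H) → (H →L[ℂ] H)} {S S' : H →L[ℂ] H} (h1 : IsM hG f S)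
    (h2 : IsM hG f' S') : IsM hG (fun g => f g + f' g) (S + S') := by
  intro ξ η
  have e : ∀ s, ⟪η, avg (hG.cl s) (fun g => f g + f' g) ξ⟫_ℂ =
      ⟪η, avg (hG.cl s) f ξ⟫_ℂ + ⟪η, avg (hG.cl s) f' ξ⟫_ℂ := by
    intro s
    unfold avg
    rw [Finset.sum_add_distrib, smul_add, ContinuousLinearMap.add_apply, inner_add_right]
  simp only [e]
  rw [ContinuousLinearMap.add_apply, inner_add_right]
  exact (h1 ξ η).add (h2 ξ η)

theorem IsM.neg {f : (H →L[ℂ] H) → (H →L[ℂ] H)} {S : H →L[ℂ] H} (h1 : IsM hG f S) :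
    IsM hG (fun g => - f g) (-S) := by
  intro ξ η
  have e : ∀ s, ⟪η, avg (hG.cl s) (fun g => - f g) ξ⟫_ℂ = - ⟪η, avg (hG.cl s) f ξ⟫_ℂ := by
    intro s
    unfold avg
    rw [Finset.sum_neg_distrib, smul_neg, ContinuousLinearMap.neg_apply, inner_neg_right]
  simp only [e]
  rw [ContinuousLinearMap.neg_apply, inner_neg_right]
  exact (h1 ξ η).neg

theorem IsM.sub {f f' : (H →L[ℂ] H) → (H →L[ℂ] H)} {S S' : H →L[ℂ] H} (h1 : IsM hG f S)
    (h2 : IsM hG f' S') : IsM hG (fun g => f g - f' g) (S - S') := by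
  simp only [sub_eq_add_neg]
  exact h1.add h2.neg

theorem IsM.mul_left {f : (H →L[ℂ] H) → (H →L[ℂ] H)} {S : H →L[ℂ] H} (h1 : IsM hG f S)
    (a : H →L[ℂ] H) : IsM hG (fun g => a * f g) (a * S) := by
  intro ξ η
  have e : ∀ s, ⟪η, avg (hG.cl s) (fun g => a * f g) ξ⟫_ℂ = ⟪star a η, avg (hG.cl s) f ξ⟫_ℂ := by
    intro s
    unfold avg
    rw [← Finset.mul_sum, ← mul_smul_comm, ContinuousLinearMap.star_eq_adjoint,
      ContinuousLinearMap.adjoint_inner_left]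
    rfl
  simp only [e]
  have e2 : ⟪η, (a * S) ξ⟫_ℂ = ⟪star a η, S ξ⟫_ℂ := by
    rw [ContinuousLinearMap.star_eq_adjoint, ContinuousLinearMap.adjoint_inner_left]
    rfl
  rw [e2]
  exact h1 ξ (star a η)

theorem IsM.mul_right {f : (H →L[ℂ] H) → (H →L[ℂ] H)} {S : H →L[ℂ] H} (h1 : IsM hG f S)
    (a : H →L[ℂ] H) : IsM hG (fun g => f g * a) (S * a) := by
  intro ξ η
  have e : ∀ s, ⟪η, avg (hG.cl s) (fun g => f g * a) ξ⟫_ℂ = ⟪η, avg (hG.cl s) f (a ξ)⟫_ℂ := by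
    intro s
    unfold avg
    rw [← Finset.sum_mul, ← smul_mul_assoc]
    rfl
  simp only [e]
  exact h1 (a ξ) η

theorem IsM.star' {f : (H →L[ℂ] H) → (H →L[ℂ] H)} {S : H →L[ℂ] H} (h1 : IsM hG f S) :
    IsM hG (fun g => star (f g)) (star S) := by
  intro ξ η
  have e : ∀ s, ⟪η, avg (hG.cl s) (fun g => star (f g)) ξ⟫_ℂ =
      conj ⟪ξ, avg (hG.cl s) f η⟫_ℂ := by
    intro s
    have : avg (hG.cl s) (fun g => star (f g)) = star (avg (hG.cl s) f) := by
      unfold avg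
      rw [star_smul, star_sum]
      congr 1
      simp
    rw [this, ContinuousLinearMap.star_eq_adjoint, ContinuousLinearMap.adjoint_inner_right,
      inner_conj_symm]
  simp only [e]
  have e2 : ⟪η, (star S) ξ⟫_ℂ = conj ⟪ξ, S η⟫_ℂ := by
    rw [ContinuousLinearMap.star_eq_adjoint, ContinuousLinearMap.adjoint_inner_right,
      inner_conj_symm]
  rw [e2]
  exact (Complex.continuous_conj.tendsto _).comp (h1 η ξ)

theorem IsM.const (c : H →L[ℂ] H) : IsM hG (fun _ => c) c := by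
  intro ξ η
  have e : ∀ s, avg (hG.cl s) (fun _ => c) = c := by
    intro s
    unfold avg
    rw [Finset.sum_const, ← Nat.cast_smul_eq_nsmul ℂ, smul_smul, inv_mul_cancel₀, one_smul]
    exact_mod_cast (card_cl_pos hG s).ne'
  simp only [e]
  exact tendsto_const_nhds

theorem UF_mem (g : H →L[ℂ] H) : ∀ᶠ s in (UF H : Filter (Finset (H →L[ℂ] H))), g ∈ s := by
  have h1 : ∀ᶠ s in (atTop : Filter (Finset (H →L[ℂ] H))), g ∈ s := by
    filter_upwards [Filter.eventually_ge_atTop {g}] with s hs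
    exact hs (Finset.mem_singleton_self g)
  exact (Ultrafilter.of_le atTop) h1

theorem IsM.shift {f : (H →L[ℂ] H) → (H →L[ℂ] H)} {S : H →L[ℂ] H} (h1 : IsM hG f S)
    {g : H →L[ℂ] H} (hg : g ∈ G) : IsM hG (fun h => f (h * g)) S := by
  intro ξ η
  refine (h1 ξ η).congr' ?_
  filter_upwards [UF_mem g] with s hs
  have hgs : g ∈ hG.cl s := (hG.cl_spec s).1 g hs hg
  congr 2
  unfold avg
  congr 1
  symm
  refine Finset.sum_bij (fun h _ => h * g) ?_ ?_ ?_ ?_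
  · intro h hh
    exact (hG.cl_spec s).2.2.2 h hh g hgs
  · intro a _ b _ hab
    have := congrArg (fun x => x * g) hab
    simpa [mul_assoc, hG.sq g hg] using this
  · intro b hb
    refine ⟨b * g, (hG.cl_spec s).2.2.2 b hb g hgs, ?_⟩
    rw [mul_assoc, hG.sq g hg, mul_one]
  · intro h _
    rfl

theorem IsM.mem {f : (H →L[ℂ] H) → (H →L[ℂ] H)} {S : H →L[ℂ] H} (h1 : IsM hG f S)
    {N : VonNeumannAlgebra H} (h : ∀ g ∈ G, f g ∈ N) : S ∈ N := by
  apply mem_of_comm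
  intro y hy
  have h2 := h1.mul_left y
  have h3 := h1.mul_right y
  exact (h2.congr fun g hg => comm_of_mem hy (h g hg)).uniq h3

/-- Matrix coefficients. -/
theorem IsM.coef {f : (H →L[ℂ] H) → (H →L[ℂ] H)} {S : H →L[ℂ] H} (h1 : IsM hG f S)
    {ξ η : H} {c : ℂ} (h : ∀ g ∈ G, ⟪η, f g ξ⟫_ℂ = c) : ⟪η, S ξ⟫_ℂ = c := by
  have e : ∀ s, ⟪η, avg (hG.cl s) f ξ⟫_ℂ = c := by
    intro s
    have h0 : (∑ h ∈ hG.cl s, f h) ξ = ∑ h ∈ hG.cl s, f h ξ := by
      rw [ContinuousLinearMap.sum_apply]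
    unfold avg
    rw [ContinuousLinearMap.smul_apply, h0, inner_smul_right, inner_sum,
      Finset.sum_congr rfl fun g hg => h g ((hG.cl_spec s).2.1 g hg), Finset.sum_const,
      nsmul_eq_mul, ← mul_assoc, inv_mul_cancel₀, one_mul]
    exact_mod_cast (card_cl_pos hG s).ne'
  have := h1 ξ η
  simp only [e] at this
  exact tendsto_nhds_unique this tendsto_const_nhds

end H203R3.CC
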