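import Mathlib
import Pool.Agent.H203R3.CC.Mean

/-!
Perturbation of Boolean groups of symmetries close to a von Neumann algebra.
-/

open scoped ComplexOrder InnerProductSpace ComplexConjugate
open Finset Filter Topology

noncomputable section

namespace H203R3.CC

open H759R2.Kad H710R2.DP

variable {H : Type} [NormedAddCommGroup H] [InnerProductSpace ℂ H] [CompleteSpace H]

theorem norm_one_le' : ‖(1 : H →L[ℂ] H)‖ ≤ 1 := ContinuousLinearMap.norm_id_le

/-- Symmetries near symmetries. -/
theorem sym_near (N : VonNeumannAlgebra H) {g : H →L[ℂ] H} (hg1 : star g = g) (hg2 : g * g = 1)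
    {γ : ℝ} (hγ : γ ≤ 1 / 10) (h : ∃ y ∈ N, ‖g - y‖ ≤ γ) :
    ∃ n ∈ N, star n = n ∧ n * n = 1 ∧ ‖n - g‖ ≤ 5 * γ := by
  obtain ⟨y, hy, hgy⟩ := h
  have hγ0 : 0 ≤ γ := (norm_nonneg _).trans hgy
  have hgn : ‖g‖ ≤ 1 := norm_unit_le (by rw [hg1, hg2])
  set z : H →L[ℂ] H := (1 / 2 : ℂ) • (y + star y) with hz
  have hzN : z ∈ N := smul_mem' _ (add_mem hy (star_mem (S := VonNeumannAlgebra H) hy))
  have hzs : star z = z := by
    rw [hz, star_smul, star_add, star_star, add_comm (star y) y]
    congr 1
    simp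
  have hzg : ‖z - g‖ ≤ γ := by
    have e1 : z - g = (1 / 2 : ℂ) • ((y - g) + star (y - g)) := by
      rw [hz, star_sub, hg1]
      have : g = (1 / 2 : ℂ) • (g + g) := by
        rw [← two_smul ℂ g, smul_smul]; norm_num
      nth_rewrite 1 [this]
      rw [← smul_sub]
      congr 1
      abel
    rw [e1, norm_smul]
    have h1 : ‖(y - g) + star (y - g)‖ ≤ 2 * γ := by
      refine (norm_add_le _ _).trans ?_
      rw [norm_star, norm_sub_rev]
      linarith
    have h2 : ‖(1 / 2 : ℂ)‖ = 1 / 2 := by simp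
    rw [h2]
    linarith
  have hzn : ‖z‖ ≤ 1 + γ := by
    calc ‖z‖ = ‖(z - g) + g‖ := by rw [sub_add_cancel]
      _ ≤ ‖z - g‖ + ‖g‖ := norm_add_le _ _
      _ ≤ 1 + γ := by linarith
  have hQ : ‖z * z - 1‖ ≤ 3 * γ := by
    have e1 : z * z - 1 = z * (z - g) + (z - g) * g := by
      rw [mul_sub, sub_mul, hg2]; abel
    rw [e1]
    calc ‖z * (z - g) + (z - g) * g‖ ≤ ‖z‖ * ‖z - g‖ + ‖z - g‖ * ‖g‖ :=
          (norm_add_le _ _).trans (add_le_add (norm_mul_le _ _) (norm_mul_le _ _))
      _ ≤ (1 + γ) * γ + γ * 1 := by gcongr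
      _ ≤ 3 * γ := by nlinarith
  obtain ⟨b, hb1, hb2, hb3, hb4⟩ := isqrt (z * z) (by rw [star_mul, hzs]) (3 * γ)
    (by linarith) hQ
  have hzb : z * b = b * z := hb4 z (by rw [mul_assoc])
  have hbN : b ∈ N := by
    apply mem_of_comm
    intro x hx
    apply hb4
    exact comm_of_mem hx (mul_mem hzN hzN)
  refine ⟨z * b, mul_mem hzN hbN, by rw [star_mul, hb1, hzs, hzb], ?_, ?_⟩
  · calc z * b * (z * b) = b * z * (z * b) := by rw [hzb]
      _ = b * (z * z) * b := by simp only [mul_assoc]
      _ = 1 := hb2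
  · have e1 : z * b - g = z * (b - 1) + (z - g) := by rw [mul_sub, mul_one]; abel
    rw [e1]
    calc ‖z * (b - 1) + (z - g)‖ ≤ ‖z‖ * ‖b - 1‖ + ‖z - g‖ :=
          (norm_add_le _ _).trans (add_le_add (norm_mul_le _ _) le_rfl)
      _ ≤ (1 + γ) * (3 * γ) + γ := by gcongr
      _ ≤ 5 * γ := by nlinarith

/-- One step. -/
theorem step (N : VonNeumannAlgebra H) {G : Set (H →L[ℂ] H)} (hG : BG G) {γ : ℝ}
    (hγ : γ ≤ 1 / 1000) (hn : ∀ g ∈ G, ∃ y ∈ N, ‖g - y‖ ≤ γ) :
    ∃ w : H →L[ℂ] H, star w * w = 1 ∧ w * star w = 1 ∧ ‖w - 1‖ ≤ 25 * γ ∧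
      (∀ g ∈ G, ∃ y ∈ N, ‖star w * g * w - y‖ ≤ γ / 2) ∧
      ∀ y, (∀ g ∈ G, y * g = g * y) → (∀ n ∈ N, y * n = n * y) → y * w = w * y := by
  have hγ0 : 0 ≤ γ := by
    obtain ⟨y, -, hy⟩ := hn 1 hG.one
    exact (norm_nonneg _).trans hy
  have h1 : ∀ g ∈ G, ∃ n ∈ N, star n = n ∧ n * n = 1 ∧ ‖n - g‖ ≤ 5 * γ := fun g hg =>
    sym_near N (hG.adj g hg) (hG.sq g hg) (by linarith) (hn g hg)
  choose! n hnN hns hnn hng using h1
  set β : ℝ := 5 * γ with hβ
  have hβ0 : 0 ≤ β := by positivity
  have hβ1 : β ≤ 1 / 200 := by linarith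
  have hnn1 : ∀ g ∈ G, ‖n g‖ ≤ 1 := fun g hg => norm_unit_le (by rw [hns g hg, hnn g hg])
  -- the intertwiner
  obtain ⟨T, -, hT⟩ := IsM.ex hG (f := fun h => h * n h) (d := 1) (fun g hg => by
    refine (norm_mul_le _ _).trans ?_
    have := hG.norm_le hg
    have := hnn1 g hg
    nlinarith [norm_nonneg g, norm_nonneg (n g)])
  have hT1 : ‖T - 1‖ ≤ β := by
    refine (hT.sub (IsM.const (1 : H →L[ℂ] H))).norm_le fun g hg => ?_
    have e1 : g * n g - 1 = g * (n g - g) := by rw [mul_sub, hG.sq g hg]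
    rw [e1]
    refine (norm_mul_le _ _).trans ?_
    have := hG.norm_le hg
    have := hng g hg
    nlinarith [norm_nonneg g, norm_nonneg (n g - g)]
  have hTn : ‖T‖ ≤ 101 / 100 := by
    calc ‖T‖ = ‖(T - 1) + 1‖ := by rw [sub_add_cancel]
      _ ≤ ‖T - 1‖ + ‖(1 : H →L[ℂ] H)‖ := norm_add_le _ _
      _ ≤ 101 / 100 := by linarith [norm_one_le' (H := H)]
  obtain ⟨w, b, hw, hb1, hb2, hb3, hb4, hw1, hw2, hw3⟩ := upart T β (by linarith) hT1
  have hbn : ‖b‖ ≤ 103 / 100 := by
    calc ‖b‖ = ‖(b - 1) + 1‖ := by rw [sub_add_cancel]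
      _ ≤ ‖b - 1‖ + ‖(1 : H →L[ℂ] H)‖ := norm_add_le _ _
      _ ≤ 103 / 100 := by linarith [norm_one_le' (H := H)]
  refine ⟨w, hw1, hw2, by linarith, ?_, ?_⟩
  · intro g hg
    -- the corrected symmetry
    obtain ⟨S, -, hS⟩ := IsM.ex hG (f := fun h => n h * n (h * g)) (d := 1) (fun h hh => by
      refine (norm_mul_le _ _).trans ?_
      have := hnn1 h hh
      have := hnn1 (h * g) (hG.mul h hh g hg)
      nlinarith [norm_nonneg (n h), norm_nonneg (n (h * g))])
    have hSN : S ∈ N := hS.mem fun h hh => mul_mem (hnN h hh) (hnN _ (hG.mul h hh g hg))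
    have hSs : star S = S := by
      refine hS.star'.uniq ?_
      have h2 := hS.shift hg
      refine h2.congr fun h hh => ?_
      rw [star_mul, hns h hh, hns _ (hG.mul h hh g hg), mul_assoc, hG.sq g hg, mul_one]
    have hSg : ‖S - g‖ ≤ 2 * β := by
      refine (hS.sub (IsM.const g)).norm_le fun h hh => ?_
      have e1 : n h * n (h * g) - g = n h * (n (h * g) - h * g) + (n h - h) * (h * g) := by
        rw [mul_sub, sub_mul]
        have : h * (h * g) = g := by rw [← mul_assoc, hG.sq h hh, one_mul]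
        rw [this]; abel
      rw [e1]
      have h3 := hnn1 h hh
      have h4 := hng h hh
      have h5 := hng (h * g) (hG.mul h hh g hg)
      have h6 := hG.norm_le (hG.mul h hh g hg)
      calc ‖n h * (n (h * g) - h * g) + (n h - h) * (h * g)‖
          ≤ ‖n h‖ * ‖n (h * g) - h * g‖ + ‖n h - h‖ * ‖h * g‖ :=
            (norm_add_le _ _).trans (add_le_add (norm_mul_le _ _) (norm_mul_le _ _))
        _ ≤ 1 * β + β * 1 := by gcongr
        _ = 2 * β := by ring
    have hgT : IsM hG (fun h => h * n (h * g)) (g * T) := by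
      have h2 := (hT.mul_left g).shift hg
      refine h2.congr fun h hh => ?_
      have : g * (h * g * n (h * g)) = (g * g) * h * n (h * g) := by
        rw [mul_assoc g g h, hG.comm g hg h hh]
        simp only [mul_assoc]
      rw [this, hG.sq g hg, one_mul]
    set D : H →L[ℂ] H := g * T - T * S with hD
    have hDn : ‖D‖ ≤ 4 * β ^ 2 := by
      have h2 : IsM hG (fun h => (h - n h) * (n (h * g) - n h * S)) D := by
        have h3 := ((hgT.sub (hT.mul_right S)).sub hS).add (IsM.const S)
        rw [sub_add_cancel] at h3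
        refine h3.congr fun h hh => ?_
        have e1 : (h - n h) * (n (h * g) - n h * S) = h * n (h * g) - h * n h * S -
            n h * n (h * g) + n h * n h * S := by
          simp only [sub_mul, mul_sub, mul_assoc]; abel
        rw [e1, hnn h hh, one_mul]
      refine h2.norm_le fun h hh => ?_
      have e2 : n (h * g) - n h * S = n h * (n h * n (h * g) - S) := by
        rw [mul_sub, ← mul_assoc, hnn h hh, one_mul]
      have h3 := hnn1 h hh
      have h4 := hng h hh
      have h5 := hng (h * g) (hG.mul h hh g hg)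
      have h6 := hG.norm_le (hG.mul h hh g hg)
      have h7 : ‖n h * n (h * g) - g‖ ≤ 2 * β := by
        have e1 : n h * n (h * g) - g = n h * (n (h * g) - h * g) + (n h - h) * (h * g) := by
          rw [mul_sub, sub_mul]
          have : h * (h * g) = g := by rw [← mul_assoc, hG.sq h hh, one_mul]
          rw [this]; abel
        rw [e1]
        calc ‖n h * (n (h * g) - h * g) + (n h - h) * (h * g)‖
            ≤ ‖n h‖ * ‖n (h * g) - h * g‖ + ‖n h - h‖ * ‖h * g‖ :=
              (norm_add_le _ _).trans (add_le_add (norm_mul_le _ _) (norm_mul_le _ _))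
          _ ≤ 1 * β + β * 1 := by gcongr
          _ = 2 * β := by ring
      have h8 : ‖n h * n (h * g) - S‖ ≤ 4 * β := by
        have e3 : n h * n (h * g) - S = (n h * n (h * g) - g) - (S - g) := by abel
        rw [e3]
        exact (norm_sub_le _ _).trans (by linarith)
      have h9 : ‖n (h * g) - n h * S‖ ≤ 4 * β := by
        rw [e2]
        refine (norm_mul_le _ _).trans ?_
        calc ‖n h‖ * ‖n h * n (h * g) - S‖ ≤ 1 * (4 * β) := by gcongr
          _ = 4 * β := by ring
      calc ‖(h - n h) * (n (h * g) - n h * S)‖ ≤ ‖h - n h‖ * ‖n (h * g) - n h * S‖ :=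
            norm_mul_le _ _
        _ ≤ β * (4 * β) := by
            rw [norm_sub_rev h (n h)]
            gcongr
        _ = 4 * β ^ 2 := by ring
    set Q : H →L[ℂ] H := star T * T with hQ
    have hQn : ‖Q‖ ≤ 103 / 100 := by
      rw [hQ]
      refine (norm_mul_le _ _).trans ?_
      rw [norm_star]
      nlinarith [norm_nonneg T]
    have hTgT : star T * g * T = Q * S + star T * D := by
      rw [hD, mul_sub, hQ]
      simp only [mul_assoc]
      abel
    have hcomm : Q * S - S * Q = star D * T - star T * D := by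
      have h2 : star (star T * g * T) = star T * g * T := by
        rw [star_mul, star_mul, star_star, hG.adj g hg, mul_assoc]
      have h3 : star (Q * S + star T * D) = S * Q + star D * T := by
        rw [star_add, star_mul, star_mul, hSs, star_star, hQ, star_mul, star_star]
      rw [hTgT, h3] at h2
      have : S * Q + star D * T - star T * D - S * Q = Q * S + star T * D - star T * D - S * Q := by
        rw [h2]
      have e4 : S * Q + star D * T - star T * D - S * Q = star D * T - star T * D := by abel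
      have e5 : Q * S + star T * D - star T * D - S * Q = Q * S - S * Q := by abel
      rw [e4, e5] at this
      exact this.symm
    have hcn : ‖Q * S - S * Q‖ ≤ 9 * β ^ 2 := by
      rw [hcomm]
      calc ‖star D * T - star T * D‖ ≤ ‖star D‖ * ‖T‖ + ‖star T‖ * ‖D‖ :=
            (norm_sub_le _ _).trans (add_le_add (norm_mul_le _ _) (norm_mul_le _ _))
        _ = 2 * (‖T‖ * ‖D‖) := by rw [norm_star, norm_star]; ring
        _ ≤ 2 * (101 / 100 * (4 * β ^ 2)) := by gcongr
        _ ≤ 9 * β ^ 2 := by nlinarith [sq_nonneg β]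
    have hQb : Q * b = b * Q := hb4 Q rfl
    have hbbQ : b * b * Q = 1 := by
      rw [mul_assoc, ← hQb, ← mul_assoc]; exact hb2
    have hQbb : Q * (b * b) = 1 := by
      rw [← mul_assoc, hQb]; exact hb2
    set X : H →L[ℂ] H := b * S - S * b with hX
    have hX1 : b * X + X * b = b * b * (S * Q - Q * S) * (b * b) := by
      have e1 : b * X + X * b = b * b * S - S * (b * b) := by
        rw [hX]; simp only [mul_sub, sub_mul, mul_assoc]; abel
      rw [e1]
      have e2 : b * b * (S * Q - Q * S) * (b * b) =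
          b * b * S * (Q * (b * b)) - (b * b * Q) * S * (b * b) := by
        simp only [mul_sub, sub_mul, mul_assoc]
      rw [e2, hQbb, hbbQ, mul_one, one_mul]
    have hXn : ‖X‖ ≤ 6 * β ^ 2 := by
      have e3 : (2 : ℂ) • X = (b * X + X * b) - (b - 1) * X - X * (b - 1) := by
        rw [two_smul]
        simp only [mul_sub, sub_mul, mul_one, one_mul]
        abel
      have h2 : ‖(2 : ℂ) • X‖ = 2 * ‖X‖ := by rw [norm_smul]; simp
      have h3 : ‖b * X + X * b‖ ≤ 1132 / 1000 * (9 * β ^ 2) := by
        rw [hX1]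
        calc ‖b * b * (S * Q - Q * S) * (b * b)‖
            ≤ (‖b‖ * ‖b‖ * ‖S * Q - Q * S‖) * (‖b‖ * ‖b‖) := by
              refine (norm_mul_le _ _).trans ?_
              refine mul_le_mul ?_ (norm_mul_le _ _) (norm_nonneg _) (by positivity)
              refine (norm_mul_le _ _).trans ?_
              exact mul_le_mul (norm_mul_le _ _) le_rfl (norm_nonneg _) (by positivity)
          _ = (‖b‖ * ‖b‖) * (‖b‖ * ‖b‖) * ‖Q * S - S * Q‖ := by
              rw [norm_sub_rev]; ring
          _ ≤ (103 / 100 * (103 / 100)) * (103 / 100 * (103 / 100)) * (9 * β ^ 2) := by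
              gcongr
          _ ≤ 1132 / 1000 * (9 * β ^ 2) := by nlinarith [sq_nonneg β]
      have h4 : ‖(b - 1) * X‖ ≤ 3 / 100 * ‖X‖ := by
        refine (norm_mul_le _ _).trans ?_
        gcongr
        linarith
      have h5 : ‖X * (b - 1)‖ ≤ 3 / 100 * ‖X‖ := by
        refine (norm_mul_le _ _).trans ?_
        rw [mul_comm]
        gcongr
        linarith
      have h6 : ‖(2 : ℂ) • X‖ ≤ 1132 / 1000 * (9 * β ^ 2) + 3 / 100 * ‖X‖ + 3 / 100 * ‖X‖ := by
        rw [e3]
        exact (norm_sub_le _ _).trans (add_le_add ((norm_sub_le _ _).trans (add_le_add h3 h4)) h5)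
      rw [h2] at h6
      nlinarith [norm_nonneg X, sq_nonneg β]
    refine ⟨S, hSN, ?_⟩
    have e1 : star w * g * w - S = b * star T * D * b - b * Q * X := by
      have e2 : star w * g * w = b * (star T * g * T) * b := by
        rw [hw, star_mul, hb1]; simp only [mul_assoc]
      rw [e2, hTgT]
      have e3 : b * (Q * S + star T * D) * b = b * Q * (S * b) + b * star T * D * b := by
        simp only [mul_add, add_mul, mul_assoc]
      have e4 : S * b = b * S - X := by rw [hX]; abel
      rw [e3, e4, mul_sub]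
      have e5 : b * Q * (b * S) = S := by
        calc b * Q * (b * S) = (b * Q * b) * S := by simp only [mul_assoc]
          _ = S := by rw [hb2, one_mul]
      rw [e5]
      abel
    rw [e1]
    calc ‖b * star T * D * b - b * Q * X‖
        ≤ (‖b‖ * ‖T‖ * ‖D‖) * ‖b‖ + ‖b‖ * ‖Q‖ * ‖X‖ := by
          refine (norm_sub_le _ _).trans (add_le_add ?_ ?_)
          · refine (norm_mul_le _ _).trans ?_
            gcongr
            refine (norm_mul_le _ _).trans ?_
            gcongr
            refine (norm_mul_le _ _).trans ?_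
            rw [norm_star]
          · refine (norm_mul_le _ _).trans ?_
            gcongr
            exact norm_mul_le _ _
      _ ≤ (103 / 100 * (101 / 100) * (4 * β ^ 2)) * (103 / 100) +
          103 / 100 * (103 / 100) * (6 * β ^ 2) := by gcongr
      _ ≤ γ / 2 := by
          have : γ = β / 5 := by rw [hβ]; ring
          rw [this]
          nlinarith [mul_nonneg hβ0 (sub_nonneg.2 hβ1)]
  · intro y hyG hyN
    have hyT : y * T = T * y := by
      have h2 := hT.mul_left y
      have h3 := hT.mul_right y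
      refine (h2.congr fun g hg => ?_).uniq h3
      rw [← mul_assoc, hyG g hg, mul_assoc, hyN _ (hnN g hg), mul_assoc]
    have hyTs : y * star T = star T * y := by
      have h2 := hT.star'.mul_left y
      have h3 := hT.star'.mul_right y
      refine (h2.congr fun g hg => ?_).uniq h3
      rw [star_mul, hns g hg, hG.adj g hg, ← mul_assoc, hyN _ (hnN g hg), mul_assoc, hyG g hg,
        mul_assoc]
    have hyb : y * b = b * y := by
      apply hb4
      rw [← mul_assoc, hyTs, mul_assoc, hyT, mul_assoc]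
    rw [hw, ← mul_assoc, hyT, mul_assoc, hyb, mul_assoc]

end H203R3.CC
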