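import Mathlib
import Pool.Agent.H203R3.CC.Pert

/-!
Perturbation of Boolean groups of symmetries close to a von Neumann algebra: iteration.
-/

open scoped ComplexOrder InnerProductSpace ComplexConjugate
open Finset Filter Topology

noncomputable section

namespace H203R3.CC

open H759R2.Kad H710R2.DP

variable {H : Type} [NormedAddCommGroup H] [InnerProductSpace ℂ H] [CompleteSpace H]

/-- Unitaries moving `G` near `N`. -/
structure PP (N : VonNeumannAlgebra H) (G : Set (H →L[ℂ] H)) (W : H →L[ℂ] H) (γ : ℝ) : Prop where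
  u1 : star W * W = 1
  u2 : W * star W = 1
  near : ∀ g ∈ G, ∃ y ∈ N, ‖star W * g * W - y‖ ≤ γ
  comm : ∀ y, (∀ g ∈ G, y * g = g * y) → (∀ n ∈ N, y * n = n * y) → y * W = W * y

theorem PP.step {N : VonNeumannAlgebra H} {G : Set (H →L[ℂ] H)} (hG : BG G) {W : H →L[ℂ] H}
    {γ : ℝ} (h : PP N G W γ) (hγ : γ ≤ 1 / 1000) :
    ∃ W', PP N G W' (γ / 2) ∧ ‖W' - W‖ ≤ 25 * γ := by
  obtain ⟨w, hw1, hw2, hw3, hw4, hw5⟩ := H203R3.CC.step N (hG.conj h.u1 h.u2) hγ (by
    rintro _ ⟨g, hg, rfl⟩
    exact h.near g hg)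
  have hWn : ‖W‖ ≤ 1 := norm_unit_le h.u1
  refine ⟨W * w, ⟨?_, ?_, ?_, ?_⟩, ?_⟩
  · calc star (W * w) * (W * w) = star w * (star W * W) * w := by
          rw [star_mul]; simp only [mul_assoc]
      _ = 1 := by rw [h.u1, mul_one, hw1]
  · calc W * w * star (W * w) = W * (w * star w) * star W := by
          rw [star_mul]; simp only [mul_assoc]
      _ = 1 := by rw [hw2, mul_one, h.u2]
  · intro g hg
    obtain ⟨y, hy, hgy⟩ := hw4 _ ⟨g, hg, rfl⟩
    refine ⟨y, hy, ?_⟩
    have e1 : star (W * w) * g * (W * w) = star w * (star W * g * W) * w := by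
      rw [star_mul]; simp only [mul_assoc]
    rw [e1]
    exact hgy
  · intro y hyG hyN
    have h1 : y * W = W * y := h.comm y hyG hyN
    have h1s : y * star W = star W * y := by
      calc y * star W = (star W * W) * y * star W := by rw [h.u1, one_mul]
        _ = star W * (W * y) * star W := by simp only [mul_assoc]
        _ = star W * (y * W) * star W := by rw [h1]
        _ = star W * y * (W * star W) := by simp only [mul_assoc]
        _ = star W * y := by rw [h.u2, mul_one]
    have h2 : y * w = w * y := by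
      refine hw5 y ?_ hyN
      rintro _ ⟨g, hg, rfl⟩
      simp only
      calc y * (star W * g * W) = (y * star W) * g * W := by simp only [mul_assoc]
        _ = star W * (y * g) * W := by rw [h1s]; simp only [mul_assoc]
        _ = star W * g * (y * W) := by rw [hyG g hg]; simp only [mul_assoc]
        _ = star W * g * W * y := by rw [h1]; simp only [mul_assoc]
    rw [← mul_assoc, h1, mul_assoc, h2, mul_assoc]
  · have e1 : W * w - W = W * (w - 1) := by rw [mul_sub, mul_one]
    rw [e1]
    refine (norm_mul_le _ _).trans ?_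
    calc ‖W‖ * ‖w - 1‖ ≤ 1 * (25 * γ) := by gcongr
      _ = 25 * γ := one_mul _

/-- Boolean groups near a von Neumann algebra can be moved into it. -/
theorem pert (N : VonNeumannAlgebra H) {G : Set (H →L[ℂ] H)} (hG : BG G) {γ : ℝ}
    (hγ : γ ≤ 1 / 1000) (hn : ∀ g ∈ G, ∃ y ∈ N, ‖g - y‖ ≤ γ) :
    ∃ W : H →L[ℂ] H, star W * W = 1 ∧ W * star W = 1 ∧ ‖W - 1‖ ≤ 50 * γ ∧
      (∀ g ∈ G, star W * g * W ∈ N) ∧
      ∀ y, (∀ g ∈ G, y * g = g * y) → (∀ n ∈ N, y * n = n * y) → y * W = W * y := by
  have hγ0 : 0 ≤ γ := by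
    obtain ⟨y, -, hy⟩ := hn 1 hG.one
    exact (norm_nonneg _).trans hy
  have h0 : PP N G 1 γ := ⟨by simp, by simp, by simpa using hn, by intro y _ _; simp⟩
  have h1 : ∀ (W : H →L[ℂ] H) (k : ℕ), PP N G W (γ / 2 ^ k) →
      ∃ W', PP N G W' (γ / 2 ^ (k + 1)) ∧ ‖W' - W‖ ≤ 25 * (γ / 2 ^ k) := by
    intro W k hW
    obtain ⟨W', h2, h3⟩ := hW.step hG (by
      refine le_trans ?_ hγ
      exact div_le_self hγ0 (one_le_pow₀ (by norm_num)))
    refine ⟨W', ?_, h3⟩
    rwa [pow_succ, ← div_div]
  choose! F hF using h1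
  let W : ℕ → (H →L[ℂ] H) := fun k => Nat.rec 1 (fun k W => F W k) k
  have hW0 : W 0 = 1 := rfl
  have hWs : ∀ k, W (k + 1) = F (W k) k := fun k => rfl
  have hPP : ∀ k, PP N G (W k) (γ / 2 ^ k) := by
    intro k
    induction k with
    | zero => rw [hW0]; simpa using h0
    | succ k ih => rw [hWs]; exact (hF _ _ ih).1
  have hd : ∀ k, dist (W k) (W (k + 1)) ≤ 50 * γ / 2 / 2 ^ k := by
    intro k
    rw [dist_comm, dist_eq_norm, hWs]
    refine ((hF _ _ (hPP k)).2).trans (le_of_eq ?_)
    ring
  have hcau : CauchySeq W := cauchySeq_of_le_geometric_two hd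
  obtain ⟨V, hV⟩ := cauchySeq_tendsto_of_complete hcau
  have hVs : Tendsto (fun k => star (W k)) atTop (𝓝 (star V)) := (continuous_star.tendsto V).comp hV
  have hu1 : star V * V = 1 := by
    have h2 := hVs.mul hV
    refine tendsto_nhds_unique h2 ?_
    have : (fun k => star (W k) * W k) = fun _ => 1 := by
      funext k; exact (hPP k).u1
    rw [this]
    exact tendsto_const_nhds
  have hu2 : V * star V = 1 := by
    have h2 := hV.mul hVs
    refine tendsto_nhds_unique h2 ?_
    have : (fun k => W k * star (W k)) = fun _ => 1 := by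
      funext k; exact (hPP k).u2
    rw [this]
    exact tendsto_const_nhds
  refine ⟨V, hu1, hu2, ?_, ?_, ?_⟩
  · have := dist_le_of_le_geometric_two_of_tendsto₀ hd hV
    rw [hW0, dist_comm, dist_eq_norm] at this
    exact this
  · intro g hg
    apply mem_of_near
    intro ε hε
    have h2 : Tendsto (fun k => star (W k) * g * W k) atTop (𝓝 (star V * g * V)) :=
      (hVs.mul_const g).mul hV
    have h3 : Tendsto (fun k => ‖star V * g * V - star (W k) * g * W k‖ + γ / 2 ^ k) atTop
        (𝓝 (0 + 0)) := by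
      apply Tendsto.add
      · have : Tendsto (fun k => star V * g * V - star (W k) * g * W k) atTop (𝓝 0) := by
          have := (tendsto_const_nhds (x := star V * g * V)).sub h2
          simpa using this
        simpa using this.norm
      · have : Tendsto (fun k : ℕ => γ * ((1 / 2 : ℝ)) ^ k) atTop (𝓝 (γ * 0)) :=
          (tendsto_pow_atTop_nhds_zero_of_lt_one (by norm_num) (by norm_num)).const_mul γ
        simpa [div_eq_mul_inv] using this
    rw [add_zero] at h3
    obtain ⟨k, hk⟩ := (h3.eventually (gt_mem_nhds hε)).exists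
    obtain ⟨y, hy, hgy⟩ := (hPP k).near g hg
    refine ⟨y, hy, ?_⟩
    have e1 : star V * g * V - y = (star V * g * V - star (W k) * g * W k) +
        (star (W k) * g * W k - y) := by abel
    rw [e1]
    refine (norm_add_le _ _).trans ?_
    linarith
  · intro y hyG hyN
    have h2 := hV.const_mul y
    have h3 := hV.mul_const y
    refine tendsto_nhds_unique h2 (h3.congr fun k => ?_)
    exact ((hPP k).comm y hyG hyN).symm

/-- Simultaneous perturbation of a group in `N` and a group in the commutant. -/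
theorem pert2 (N : VonNeumannAlgebra H) {G R : Set (H →L[ℂ] H)} (hG : BG G) (hR : BG R)
    (hGR : ∀ g ∈ G, ∀ r ∈ R, g * r = r * g) {γ : ℝ} (hγ : γ ≤ 1 / 101000)
    (hn : ∀ g ∈ G, ∃ y ∈ N, ‖g - y‖ ≤ γ) (hn' : ∀ g ∈ R, ∃ y ∈ N.commutant, ‖g - y‖ ≤ γ) :
    ∃ W : H →L[ℂ] H, star W * W = 1 ∧ W * star W = 1 ∧ ‖W - 1‖ ≤ 5100 * γ ∧
      (∀ g ∈ G, star W * g * W ∈ N) ∧ (∀ g ∈ R, star W * g * W ∈ N.commutant) := by
  have hγ0 : 0 ≤ γ := by
    obtain ⟨y, -, hy⟩ := hn 1 hG.one
    exact (norm_nonneg _).trans hy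
  obtain ⟨w, hw1, hw2, hw3, hw4, -⟩ := pert N hG (by linarith) hn
  have hwn : ‖w‖ ≤ 1 := norm_unit_le hw1
  have hws : ‖star w - 1‖ ≤ 50 * γ := by
    have : star w - 1 = star (w - 1) := by rw [star_sub, star_one]
    rw [this, norm_star]; exact hw3
  obtain ⟨v, hv1, hv2, hv3, hv4, hv5⟩ := pert N.commutant (hR.conj hw1 hw2) (γ := 101 * γ)
    (by linarith) (by
    rintro _ ⟨g, hg, rfl⟩
    obtain ⟨y, hy, hgy⟩ := hn' g hg
    refine ⟨y, hy, ?_⟩
    have e1 : star w * g * w - y = (star w - 1) * g * w + g * (w - 1) + (g - y) := by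
      simp only [sub_mul, mul_sub, one_mul, mul_one, mul_assoc]; abel
    have hgn := hR.norm_le hg
    simp only
    rw [e1]
    calc ‖(star w - 1) * g * w + g * (w - 1) + (g - y)‖
        ≤ (‖star w - 1‖ * ‖g‖) * ‖w‖ + ‖g‖ * ‖w - 1‖ + ‖g - y‖ := by
          refine (norm_add_le _ _).trans (add_le_add ((norm_add_le _ _).trans
            (add_le_add ?_ (norm_mul_le _ _))) le_rfl)
          refine (norm_mul_le _ _).trans ?_
          gcongr
          exact norm_mul_le _ _
      _ ≤ (50 * γ * 1) * 1 + 1 * (50 * γ) + γ := by gcongr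
      _ = 101 * γ := by ring)
  refine ⟨w * v, ?_, ?_, ?_, ?_, ?_⟩
  · calc star (w * v) * (w * v) = star v * (star w * w) * v := by
          rw [star_mul]; simp only [mul_assoc]
      _ = 1 := by rw [hw1, mul_one, hv1]
  · calc w * v * star (w * v) = w * (v * star v) * star w := by
          rw [star_mul]; simp only [mul_assoc]
      _ = 1 := by rw [hv2, mul_one, hw2]
  · have e1 : w * v - 1 = w * (v - 1) + (w - 1) := by rw [mul_sub, mul_one]; abel
    rw [e1]
    calc ‖w * (v - 1) + (w - 1)‖ ≤ ‖w‖ * ‖v - 1‖ + ‖w - 1‖ :=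
          (norm_add_le _ _).trans (add_le_add (norm_mul_le _ _) le_rfl)
      _ ≤ 1 * (50 * (101 * γ)) + 50 * γ := by gcongr
      _ = 5100 * γ := by ring
  · intro g hg
    have h1 := hw4 g hg
    have h2 : star w * g * w * v = v * (star w * g * w) := by
      apply hv5
      · rintro _ ⟨r, hr, rfl⟩
        simp only
        have key : ∀ a b : H →L[ℂ] H, star w * a * w * (star w * b * w) =
            star w * (a * b) * w := by
          intro a b
          calc star w * a * w * (star w * b * w) = star w * a * (w * star w) * b * w := by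
                simp only [mul_assoc]
            _ = star w * (a * b) * w := by rw [hw2, mul_one]; simp only [mul_assoc]
        rw [key, key, hGR g hg r hr]
      · intro n hn
        exact (comm_of_mem hn h1).symm
    have e1 : star (w * v) * g * (w * v) = star v * (star w * g * w * v) := by
      rw [star_mul]; simp only [mul_assoc]
    rw [e1, h2, ← mul_assoc, hv1, one_mul]
    exact h1
  · intro g hg
    have h1 := hv4 _ ⟨g, hg, rfl⟩
    have e1 : star (w * v) * g * (w * v) = star v * (star w * g * w) * v := by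
      rw [star_mul]; simp only [mul_assoc]
    rw [e1]
    exact h1

end H203R3.CC
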