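import Mathlib
import Pool.Agent.H203R3.CC.Defs
import Pool.Agent.H203R3.CC.Mean
import Pool.Agent.H710R2.DP.Final

/-!
Traces on II₁ factors.
-/

open scoped ComplexOrder InnerProductSpace ComplexConjugate ENNReal
open Finset Filter Topology

noncomputable section

namespace H203R3.CC

open H759R2.Kad H710R2.DP

variable {H : Type} [NormedAddCommGroup H] [InnerProductSpace ℂ H] [CompleteSpace H]

section state

variable {ξ : ℕ → H} (hξ : HasSum (fun n => ‖ξ n‖ ^ 2) 1)

include hξ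

omit [CompleteSpace H] in
theorem bd_term (x : H →L[ℂ] H) {d : ℝ} (hx : ‖x‖ ≤ d) (n : ℕ) :
    ‖⟪ξ n, x (ξ n)⟫_ℂ‖ ≤ d * ‖ξ n‖ ^ 2 := by
  calc ‖⟪ξ n, x (ξ n)⟫_ℂ‖ ≤ ‖ξ n‖ * ‖x (ξ n)‖ := norm_inner_le_norm _ _
    _ ≤ ‖ξ n‖ * (‖x‖ * ‖ξ n‖) := by gcongr; exact x.le_opNorm _
    _ ≤ ‖ξ n‖ * (d * ‖ξ n‖) := by gcongr
    _ = d * ‖ξ n‖ ^ 2 := by ring

omit [CompleteSpace H] in
theorem tr_summable (x : H →L[ℂ] H) : Summable fun n => ⟪ξ n, x (ξ n)⟫_ℂ :=
  Summable.of_norm_bounded (hξ.summable.mul_left ‖x‖) (bd_term hξ x le_rfl)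

omit [CompleteSpace H] in
theorem trF_add (x y : H →L[ℂ] H) : trF ξ (x + y) = trF ξ x + trF ξ y := by
  unfold trF
  rw [← (tr_summable hξ x).tsum_add (tr_summable hξ y)]
  congr 1
  funext n
  rw [ContinuousLinearMap.add_apply, inner_add_right]

omit [CompleteSpace H] in
theorem trF_sub (x y : H →L[ℂ] H) : trF ξ (x - y) = trF ξ x - trF ξ y := by
  unfold trF
  rw [← (tr_summable hξ x).tsum_sub (tr_summable hξ y)]
  congr 1
  funext n
  rw [ContinuousLinearMap.sub_apply, inner_sub_right]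

omit [CompleteSpace H] hξ in
theorem trF_smul (c : ℂ) (x : H →L[ℂ] H) : trF ξ (c • x) = c * trF ξ x := by
  unfold trF
  rw [← tsum_mul_left]
  congr 1
  funext n
  rw [ContinuousLinearMap.smul_apply, inner_smul_right]

omit [CompleteSpace H] hξ in
theorem trF_zero : trF ξ (0 : H →L[ℂ] H) = 0 := by
  unfold trF; simp

omit [CompleteSpace H] in
theorem trF_sum {ι : Type} (s : Finset ι) (x : ι → (H →L[ℂ] H)) :
    trF ξ (∑ i ∈ s, x i) = ∑ i ∈ s, trF ξ (x i) := by
  classical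
  induction s using Finset.induction_on with
  | empty => simp [trF_zero]
  | insert a s ha ih => rw [Finset.sum_insert ha, Finset.sum_insert ha, trF_add hξ, ih]

omit [CompleteSpace H] in
theorem trF_one : trF ξ (1 : H →L[ℂ] H) = 1 := by
  unfold trF
  have h1 : HasSum (fun n => ((‖ξ n‖ ^ 2 : ℝ) : ℂ)) ((1 : ℝ) : ℂ) := Complex.hasSum_ofReal.2 hξ
  have e : (fun n => ⟪ξ n, (1 : H →L[ℂ] H) (ξ n)⟫_ℂ) = fun n => ((‖ξ n‖ ^ 2 : ℝ) : ℂ) := by
    funext n
    rw [ContinuousLinearMap.one_apply, inner_self_eq_norm_sq_to_K]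
    push_cast; rfl
  rw [e, h1.tsum_eq]
  simp

omit [CompleteSpace H] in
theorem norm_trF_le (x : H →L[ℂ] H) : ‖trF ξ x‖ ≤ ‖x‖ := by
  have h1 : HasSum (fun n => ‖x‖ * ‖ξ n‖ ^ 2) (‖x‖ * 1) := hξ.mul_left _
  rw [mul_one] at h1
  exact tsum_of_norm_bounded h1 (bd_term hξ x le_rfl)

omit hξ in
theorem trF_star (x : H →L[ℂ] H) : trF ξ (star x) = conj (trF ξ x) := by
  unfold trF
  rw [Complex.conj_tsum]
  congr 1
  funext n
  rw [ContinuousLinearMap.star_eq_adjoint, ContinuousLinearMap.adjoint_inner_right,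
    inner_conj_symm]

omit hξ in
theorem trF_pos (x : H →L[ℂ] H) : 0 ≤ (trF ξ (star x * x)).re := by
  have e : ∀ n, ⟪ξ n, (star x * x) (ξ n)⟫_ℂ = ((‖x (ξ n)‖ ^ 2 : ℝ) : ℂ) := by
    intro n
    rw [ContinuousLinearMap.mul_apply, ContinuousLinearMap.star_eq_adjoint,
      ContinuousLinearMap.adjoint_inner_right, inner_self_eq_norm_sq_to_K]
    push_cast; rfl
  unfold trF
  simp only [e]
  rw [← Complex.ofReal_tsum, Complex.ofReal_re]
  exact tsum_nonneg fun n => by positivity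

theorem one_ne' : (1 : H →L[ℂ] H) ≠ 0 := by
  intro h0
  have h1 := trF_one hξ
  rw [h0, trF_zero] at h1
  exact one_ne_zero h1.symm

/-- Normality. -/
theorem IsM.tr {G : Set (H →L[ℂ] H)} {hG : BG G} {f : (H →L[ℂ] H) → (H →L[ℂ] H)}
    {S : H →L[ℂ] H} (h1 : IsM hG f S) {d : ℝ} (hd : ∀ g ∈ G, ‖f g‖ ≤ d) {c : ℂ}
    (h : ∀ g ∈ G, trF ξ (f g) = c) : trF ξ S = c := by
  have e : ∀ s, trF ξ (avg (hG.cl s) f) = c := by
    intro s
    unfold avg
    rw [trF_smul, trF_sum hξ, Finset.sum_congr rfl fun g hg => h g ((hG.cl_spec s).2.1 g hg),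
      Finset.sum_const, nsmul_eq_mul, ← mul_assoc, inv_mul_cancel₀, one_mul]
    exact_mod_cast (card_cl_pos hG s).ne'
  have h2 : Tendsto (fun s => trF ξ (avg (hG.cl s) f)) (UF H) (𝓝 (trF ξ S)) := by
    unfold trF
    refine tendsto_tsum_of_dominated_convergence (bound := fun n => d * ‖ξ n‖ ^ 2)
      (hξ.summable.mul_left d) (fun n => h1 (ξ n) (ξ n)) (Filter.Eventually.of_forall ?_)
    intro s n
    exact bd_term hξ _ (norm_avg_le (card_cl_pos hG s)
      fun g hg => hd g ((hG.cl_spec s).2.1 g hg)) n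
  simp only [e] at h2
  exact tendsto_nhds_unique h2 tendsto_const_nhds |>.symm ▸ rfl

end state

theorem pi_mul {v p : H →L[ℂ] H} (h : star v * v = p) (hp : p * p = p) : v * p = v := by
  have hps : star p = p := by rw [← h, star_mul, star_star]
  have h1 : star (v - v * p) * (v - v * p) = 0 := by
    have e1 : star (v - v * p) * (v - v * p) = star v * v - star v * v * p - p * (star v * v) +
        p * (star v * v) * p := by
      rw [star_sub, star_mul, hps]
      simp only [sub_mul, mul_sub, mul_assoc]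
      abel
    rw [e1, h, hp, hp]; abel
  have h2 : v - v * p = 0 := CStarRing.star_mul_self_eq_zero_iff _ |>.1 h1
  exact (sub_eq_zero.1 h2).symm

theorem norm_pr_le {p : H →L[ℂ] H} (hp : IsPr p) : ‖p‖ ≤ 1 := by
  have h1 : ‖star p * p‖ = ‖p‖ * ‖p‖ := CStarRing.norm_star_mul_self
  rw [hp.1, hp.2] at h1
  nlinarith [norm_nonneg p]

theorem norm_pr_eq {p : H →L[ℂ] H} (hp : IsPr p) (h0 : p ≠ 0) : ‖p‖ = 1 := by
  have h1 : ‖star p * p‖ = ‖p‖ * ‖p‖ := CStarRing.norm_star_mul_self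
  rw [hp.1, hp.2] at h1
  have h2 : ‖p‖ ≠ 0 := norm_ne_zero_iff.2 h0
  have h3 : ‖p‖ * (‖p‖ - 1) = 0 := by linarith
  rcases mul_eq_zero.1 h3 with h3 | h3
  · exact absurd h3 h2
  · linarith

theorem norm_pi_le {v p : H →L[ℂ] H} (h : star v * v = p) (hp : IsPr p) : ‖v‖ ≤ 1 := by
  have h1 : ‖star v * v‖ = ‖v‖ * ‖v‖ := CStarRing.norm_star_mul_self
  rw [h] at h1
  have := norm_pr_le hp
  nlinarith [norm_nonneg v]

section fac

variable {M : VonNeumannAlgebra H} {ξ : ℕ → H} (hM : IsII1 M ξ)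

include hM

omit hM in
/-- The trace of a projection. -/
theorem tr_pr_nonneg {p : H →L[ℂ] H} (hp : IsPr p) : 0 ≤ (trF ξ p).re := by
  have := trF_pos (ξ := ξ) p
  rwa [hp.1, hp.2] at this

theorem tr_mono {p q : H →L[ℂ] H} (hp : IsPr p) (hq : IsPr q) (h : q * p = p) :
    (trF ξ p).re ≤ (trF ξ q).re := by
  have h' : p * q = p := by
    have := congrArg star h
    rwa [star_mul, hp.1, hq.1] at this
  have h1 : IsPr (q - p) := by
    refine ⟨by rw [star_sub, hp.1, hq.1], ?_⟩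
    simp only [sub_mul, mul_sub, hp.2, hq.2, h, h']
    abel
  have := tr_pr_nonneg (ξ := ξ) h1
  rw [trF_sub hM.norm, Complex.sub_re] at this
  linarith

omit hM in
theorem vv_pr {v p : H →L[ℂ] H} (hv : star v * v = p) (hp : IsPr p) : IsPr (v * star v) := by
  refine ⟨by rw [star_mul, star_star], ?_⟩
  calc v * star v * (v * star v) = v * (star v * v) * star v := by simp only [mul_assoc]
    _ = v * star v := by rw [hv, pi_mul hv hp.2]

theorem tr_sub_le {v p q : H →L[ℂ] H} (hvM : v ∈ M) (hv : star v * v = p) (hp : IsPr p)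
    (hq : IsPr q) (hqv : q * v = v) : (trF ξ p).re ≤ (trF ξ q).re := by
  have h1 : trF ξ p = trF ξ (v * star v) := by
    rw [← hv]; exact hM.tracial _ (star_mem (S := VonNeumannAlgebra H) hvM) _ hvM
  rw [h1]
  exact tr_mono hM (vv_pr hv hp) hq (by rw [← mul_assoc, hqv])

/-- Comparison in a factor. -/
theorem comp_fac {p q : H →L[ℂ] H} (hpM : p ∈ M) (hqM : q ∈ M) (hp : IsPr p) (hq : IsPr q) :
    (∃ v ∈ M, star v * v = p ∧ q * v = v) ∨ (∃ v ∈ M, star v * v = q ∧ p * v = v) := by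
  obtain ⟨v, hv, hPI, hvp, hqv, z, hz, h1, h2⟩ := fin_comp H M p hpM q hqM hp hq
  obtain ⟨c, hc⟩ := hM.factor z hz.2.1 hz.2.2
  have hcc : c * c = c := by
    have h3 := hz.1.2
    rw [hc, smul_mul_smul_comm, mul_one] at h3
    have h4 : (c * c - c) • (1 : H →L[ℂ] H) = 0 := by rw [sub_smul, h3, sub_self]
    rcases smul_eq_zero.1 h4 with h4 | h4
    · exact sub_eq_zero.1 h4
    · exact absurd h4 (one_ne' hM.norm)
  have hc01 : c = 0 ∨ c = 1 := by
    have : c * (c - 1) = 0 := by rw [mul_sub, hcc, mul_one, sub_self]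
    rcases mul_eq_zero.1 this with h | h
    · exact Or.inl h
    · exact Or.inr (sub_eq_zero.1 h)
  rcases hc01 with h0 | h0
  · left
    rw [hc, h0, zero_smul, sub_zero, one_mul] at h2
    exact ⟨v, hv, (sub_eq_zero.1 h2).symm, hqv⟩
  · right
    rw [hc, h0, one_smul, one_mul] at h1
    refine ⟨star v, star_mem (S := VonNeumannAlgebra H) hv, ?_, ?_⟩
    · rw [star_star]; exact (sub_eq_zero.1 h1).symm
    · have := congrArg star hvp
      rwa [star_mul, hp.1] at this

/-- Comparison by the trace. -/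
theorem sub_of_le {p E : H →L[ℂ] H} (hpM : p ∈ M) (hEM : E ∈ M) (hp : IsPr p) (hE : IsPr E)
    (h : (trF ξ E).re ≤ (trF ξ p).re) : ∃ v ∈ M, star v * v = E ∧ p * v = v := by
  rcases comp_fac hM hEM hpM hE hp with h1 | ⟨v, hv, h1, h2⟩
  · exact h1
  · refine ⟨star v, star_mem (S := VonNeumannAlgebra H) hv, ?_, ?_⟩
    · rw [star_star]
      have h3 : trF ξ p = trF ξ (v * star v) := by
        rw [← h1]; exact hM.tracial _ (star_mem (S := VonNeumannAlgebra H) hv) _ hv
      have h4 := vv_pr h1 hp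
      have h5 : E * (v * star v) = v * star v := by rw [← mul_assoc, h2]
      have h5' : v * star v * E = v * star v := by
        have := congrArg star h5
        rwa [star_mul, h4.1, hE.1] at this
      have h6 : IsPr (E - v * star v) := by
        refine ⟨by rw [star_sub, h4.1, hE.1], ?_⟩
        simp only [sub_mul, mul_sub, hE.2, h4.2, h5, h5']
        abel
      have h7 : (trF ξ (E - v * star v)).re = 0 := by
        apply le_antisymm
        · rw [trF_sub hM.norm, Complex.sub_re, ← h3]; linarith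
        · exact tr_pr_nonneg h6
      have h8 : trF ξ (E - v * star v) = 0 := by
        apply Complex.ext
        · exact h7
        · have h9 := trF_star (ξ := ξ) (E - v * star v)
          rw [h6.1] at h9
          have := congrArg Complex.im h9
          rw [Complex.conj_im] at this
          simp only [Complex.zero_im]
          linarith
      have h9 : E - v * star v = 0 := by
        apply hM.faithful _ (sub_mem hEM (mul_mem hv (star_mem (S := VonNeumannAlgebra H) hv)))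
        rw [h6.1, h6.2, h8]
      exact (sub_eq_zero.1 h9).symm
    · have h3 := pi_mul h1 hp.2
      have := congrArg star h3
      rwa [star_mul, hp.1] at this

theorem noAb : NoAb M 1 := by
  intro e heM he _ hab
  by_contra h0
  obtain ⟨q, hqM, hq1, hq2, hpq, hq0, hqe⟩ := hM.diffuse e heM he.1 he.2 h0
  have hqp : q * e = q := by
    have := congrArg star hpq
    rwa [star_mul, he.1, hq1] at this
  obtain ⟨z, hz, hz2⟩ := hab q hqM (1 / 4) (by norm_num)
  obtain ⟨c, hc⟩ := hM.factor z hz.1 hz.2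
  rw [hpq, hqp, hc, smul_mul_assoc, one_mul] at hz2
  have hqn := norm_pr_eq ⟨hq1, hq2⟩ hq0
  have heq : IsPr (e - q) := by
    refine ⟨by rw [star_sub, hq1, he.1], ?_⟩
    simp only [sub_mul, mul_sub, he.2, hq2, hpq, hqp]
    abel
  have heqn := norm_pr_eq heq (sub_ne_zero.2 (Ne.symm hqe))
  have h1 : ‖(1 - c) • q‖ ≤ 1 / 4 := by
    have : (1 - c) • q = q * (q - c • e) := by
      rw [mul_sub, hq2, mul_smul_comm, hqp, sub_smul, one_smul]
    rw [this]
    refine (norm_mul_le _ _).trans ?_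
    rw [hqn, one_mul]; exact hz2
  have h2 : ‖c • (e - q)‖ ≤ 1 / 4 := by
    have : c • (e - q) = - ((e - q) * (q - c • e)) := by
      simp only [mul_sub, sub_mul, mul_smul_comm, he.2, hq2, hpq, hqp, smul_sub]
      abel
    rw [this, norm_neg]
    refine (norm_mul_le _ _).trans ?_
    rw [heqn, one_mul]; exact hz2
  rw [norm_smul, hqn, mul_one] at h1
  rw [norm_smul, heqn, mul_one] at h2
  have h3 : (1 : ℝ) ≤ ‖1 - c‖ + ‖c‖ := by
    calc (1 : ℝ) = ‖(1 - c) + c‖ := by rw [sub_add_cancel, norm_one]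
      _ ≤ _ := norm_add_le _ _
  linarith

theorem dyad (m : ℕ) : ∃ e : Fin (2 ^ m) → Fin (2 ^ m) → (H →L[ℂ] H), MU M 1 (2 ^ m) e :=
  dp_Vmu (dp_Vhalf (dp_Vab dp_Vsupp prove5_polar fin_bin) prove5_chain) H M 1
    (one_mem M) ⟨star_one _, mul_one _⟩ (noAb hM) m

theorem MU_tr {L : ℕ} {e : Fin L → Fin L → (H →L[ℂ] H)} (he : MU M 1 L e) (j : Fin L) :
    trF ξ (e j j) = 1 / L := by
  have h1 : ∀ i, trF ξ (e i i) = trF ξ (e j j) := by
    intro i
    have h2 := hM.tracial _ (he.mem i j) _ (he.mem j i)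
    rwa [he.mul, he.mul, if_pos rfl, if_pos rfl] at h2
  have h3 : ∑ i, trF ξ (e i i) = 1 := by
    rw [← trF_sum hM.norm, he.sum, trF_one hM.norm]
  simp only [h1, Finset.sum_const, Finset.card_univ, Fintype.card_fin, nsmul_eq_mul] at h3
  have hL : (L : ℂ) ≠ 0 := by
    intro h0
    rw [h0, zero_mul] at h3
    exact zero_ne_one h3
  field_simp
  rw [mul_comm]; exact h3

omit hM in
theorem MU_pr {L : ℕ} {e : Fin L → Fin L → (H →L[ℂ] H)} (he : MU M 1 L e) (s : Finset (Fin L)) :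
    IsPr (∑ j ∈ s, e j j) := by
  refine ⟨by rw [star_sum]; exact Finset.sum_congr rfl fun j _ => he.adj j j, ?_⟩
  rw [Finset.sum_mul]
  refine Finset.sum_congr rfl fun i hi => ?_
  rw [Finset.mul_sum, Finset.sum_eq_single i]
  · rw [he.mul, if_pos rfl]
  · intro j _ hj
    rw [he.mul, if_neg hj.symm]
  · intro h; exact absurd hi h

end fac

end H203R3.CC
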