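import Mathlib
import Pool.Agent.H203R3.CC.Trace
import Pool.Agent.H203R3.CC.Iter
import Pool.Agent.H203R3.CC.Comm

/-!
Close projections of close II₁ factors have the same trace.
-/

open scoped ComplexOrder InnerProductSpace ComplexConjugate ENNReal
open Finset Filter Topology

noncomputable section

namespace H203R3.CC

open H759R2.Kad H710R2.DP

variable {H : Type} [NormedAddCommGroup H] [InnerProductSpace ℂ H] [CompleteSpace H]

/-- Conjugation by a unitary near the identity. -/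
theorem conj_near {w x : H →L[ℂ] H} (hw : star w * w = 1) {ε : ℝ} (h : ‖w - 1‖ ≤ ε) :
    ‖star w * x * w - x‖ ≤ 2 * ε * ‖x‖ := by
  have hwn : ‖w‖ ≤ 1 := norm_unit_le hw
  have hws : ‖star w - 1‖ ≤ ε := by
    have : star w - 1 = star (w - 1) := by rw [star_sub, star_one]
    rw [this, norm_star]; exact h
  have hε : 0 ≤ ε := (norm_nonneg _).trans h
  have e1 : star w * x * w - x = (star w - 1) * x * w + x * (w - 1) := by
    simp only [sub_mul, mul_sub, one_mul, mul_one, mul_assoc]; abel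
  rw [e1]
  calc ‖(star w - 1) * x * w + x * (w - 1)‖ ≤ (‖star w - 1‖ * ‖x‖) * ‖w‖ + ‖x‖ * ‖w - 1‖ := by
        refine (norm_add_le _ _).trans (add_le_add ?_ (norm_mul_le _ _))
        refine (norm_mul_le _ _).trans ?_
        gcongr
        exact norm_mul_le _ _
    _ ≤ (ε * ‖x‖) * 1 + ‖x‖ * ε := by gcongr
    _ = 2 * ε * ‖x‖ := by ring

/-- Partial isometries near a von Neumann algebra give subequivalences. -/
theorem transfer (N : VonNeumannAlgebra H) {P Q E p v y : H →L[ℂ] H} (hPN : P ∈ N) (hQN : Q ∈ N)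
    (hP : IsPr P) (hQ : IsPr Q) (hE : IsPr E) (hp : IsPr p) (hv : star v * v = E)
    (hpv : p * v = v) (hPE : ‖P - E‖ ≤ 1 / 20) (hQp : ‖Q - p‖ ≤ 1 / 20) (hy : y ∈ N)
    (hvy : ‖v - y‖ ≤ 1 / 20) : ∃ u ∈ N, star u * u = P ∧ Q * u = u := by
  have hvn : ‖v‖ ≤ 1 := norm_pi_le hv hE
  have hvE : v * E = v := pi_mul hv hE.2
  have hPn := norm_pr_le hP
  have hpn := norm_pr_le hp
  have hyn : ‖y‖ ≤ 21 / 20 := by
    calc ‖y‖ = ‖v - (v - y)‖ := by rw [sub_sub_cancel]
      _ ≤ ‖v‖ + ‖v - y‖ := norm_sub_le _ _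
      _ ≤ 21 / 20 := by linarith
  set z : H →L[ℂ] H := Q * y * P with hz
  have hzN : z ∈ N := mul_mem (mul_mem hQN hy) hPN
  have hzv : ‖z - v‖ ≤ 16 / 100 := by
    have e1 : z - v = (Q - p) * y * P - p * (v - y) * P + v * (P - E) := by
      simp only [hz, sub_mul, mul_sub, hvE, hpv, ← mul_assoc]
      abel
    rw [e1]
    calc ‖(Q - p) * y * P - p * (v - y) * P + v * (P - E)‖
        ≤ ((‖Q - p‖ * ‖y‖) * ‖P‖ + (‖p‖ * ‖v - y‖) * ‖P‖) + ‖v‖ * ‖P - E‖ := by
          refine (norm_add_le _ _).trans (add_le_add ((norm_sub_le _ _).trans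
            (add_le_add ?_ ?_)) (norm_mul_le _ _))
          · refine (norm_mul_le _ _).trans ?_
            gcongr
            exact norm_mul_le _ _
          · refine (norm_mul_le _ _).trans ?_
            gcongr
            exact norm_mul_le _ _
      _ ≤ ((1 / 20 * (21 / 20)) * 1 + (1 * (1 / 20)) * 1) + 1 * (1 / 20) := by gcongr
      _ ≤ 16 / 100 := by norm_num
  have hzn : ‖z‖ ≤ 116 / 100 := by
    calc ‖z‖ = ‖(z - v) + v‖ := by rw [sub_add_cancel]
      _ ≤ ‖z - v‖ + ‖v‖ := norm_add_le _ _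
      _ ≤ 116 / 100 := by linarith
  have hzz : ‖star z * z - P‖ ≤ 1 / 2 := by
    have e1 : star z * z - P = star z * (z - v) + star (z - v) * v - (P - E) := by
      rw [← hv, star_sub, mul_sub, sub_mul]; abel
    rw [e1]
    calc ‖star z * (z - v) + star (z - v) * v - (P - E)‖
        ≤ (‖star z‖ * ‖z - v‖ + ‖star (z - v)‖ * ‖v‖) + ‖P - E‖ :=
          (norm_sub_le _ _).trans (add_le_add ((norm_add_le _ _).trans
            (add_le_add (norm_mul_le _ _) (norm_mul_le _ _))) le_rfl)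
      _ ≤ (116 / 100 * (16 / 100) + 16 / 100 * 1) + 1 / 20 := by
          rw [norm_star, norm_star]
          gcongr
      _ ≤ 1 / 2 := by norm_num
  have hzP : z * P = z := by rw [hz, mul_assoc, hP.2]
  have hPz : P * star z = star z := by
    have := congrArg star hzP
    rwa [star_mul, hP.1] at this
  set a : H →L[ℂ] H := star z * z + (1 - P) with ha
  have hsa : star a = a := by
    rw [ha, star_add, star_sub, star_mul, star_star, star_one, hP.1]
  have ha1 : ‖a - 1‖ ≤ 1 / 2 := by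
    have : a - 1 = star z * z - P := by rw [ha]; abel
    rw [this]; exact hzz
  obtain ⟨b, hb1, hb2, hb3, hb4⟩ := isqrt a hsa (1 / 2) le_rfl ha1
  have haP : a * P = star z * z := by
    rw [ha, add_mul, sub_mul, one_mul, hP.2, sub_self, add_zero, mul_assoc, hzP]
  have hPa : P * a = star z * z := by
    rw [ha, mul_add, mul_sub, mul_one, hP.2, sub_self, add_zero, ← mul_assoc, hPz]
  have hbP : P * b = b * P := hb4 P (by rw [haP, hPa])
  have haN : a ∈ N := add_mem (mul_mem (star_mem (S := VonNeumannAlgebra H) hzN) hzN)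
    (sub_mem (one_mem N) hPN)
  have hbN : b ∈ N := by
    apply mem_of_comm
    intro x hx
    apply hb4
    exact comm_of_mem hx haN
  refine ⟨z * b, mul_mem hzN hbN, ?_, ?_⟩
  · calc star (z * b) * (z * b) = b * (star z * z) * b := by
          rw [star_mul, hb1]; simp only [mul_assoc]
      _ = b * (a * P) * b := by rw [haP]
      _ = b * a * (P * b) := by simp only [mul_assoc]
      _ = b * a * b * P := by rw [hbP]; simp only [mul_assoc]
      _ = P := by rw [hb2, one_mul]
  · rw [← mul_assoc, hz, ← mul_assoc, ← mul_assoc, hQ.2]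

/-- Boolean groups from commutative sets. -/
theorem BG_of {A : Set (H →L[ℂ] H)} (h1 : 1 ∈ A) (hm : ∀ x ∈ A, ∀ y ∈ A, x * y ∈ A)
    (hc : ∀ x ∈ A, ∀ y ∈ A, x * y = y * x) : BG {g | g ∈ A ∧ star g = g ∧ g * g = 1} := by
  refine ⟨⟨h1, star_one _, mul_one _⟩, ?_, ?_, ?_, ?_⟩
  · rintro g ⟨hg1, hg2, hg3⟩ h ⟨hh1, hh2, hh3⟩
    refine ⟨hm g hg1 h hh1, by rw [star_mul, hg2, hh2, hc g hg1 h hh1], ?_⟩
    calc g * h * (g * h) = g * (h * g) * h := by simp only [mul_assoc]
      _ = (g * g) * (h * h) := by rw [hc h hh1 g hg1]; simp only [mul_assoc]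
      _ = 1 := by rw [hg3, hh3, mul_one]
  · rintro g ⟨hg1, -, -⟩ h ⟨hh1, -, -⟩
    exact hc g hg1 h hh1
  · rintro g ⟨-, hg2, -⟩; exact hg2
  · rintro g ⟨-, -, hg3⟩; exact hg3

/-- The diagonal of a system of matrix units. -/
def diagS {L : ℕ} (e : Fin L → Fin L → (H →L[ℂ] H)) : Set (H →L[ℂ] H) :=
  {x | ∃ s : Fin L → ℂ, x = ∑ j, s j • e j j}

theorem diag_mul {M : VonNeumannAlgebra H} {L : ℕ} {e : Fin L → Fin L → (H →L[ℂ] H)}
    (he : MU M 1 L e) (s t : Fin L → ℂ) :
    (∑ j, s j • e j j) * (∑ j, t j • e j j) = ∑ j, (s j * t j) • e j j := by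
  rw [Finset.sum_mul]
  refine Finset.sum_congr rfl fun i _ => ?_
  rw [Finset.mul_sum, Finset.sum_eq_single i]
  · rw [smul_mul_smul_comm, he.mul, if_pos rfl]
  · intro j _ hj
    rw [smul_mul_smul_comm, he.mul, if_neg hj.symm, smul_zero]
  · intro h; exact absurd (Finset.mem_univ i) h

theorem diag_BG {M : VonNeumannAlgebra H} {L : ℕ} {e : Fin L → Fin L → (H →L[ℂ] H)}
    (he : MU M 1 L e) : BG {g | g ∈ diagS e ∧ star g = g ∧ g * g = 1} := by
  apply BG_of
  · exact ⟨fun _ => 1, by simp [he.sum]⟩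
  · rintro _ ⟨s, rfl⟩ _ ⟨t, rfl⟩
    exact ⟨fun j => s j * t j, diag_mul he s t⟩
  · rintro _ ⟨s, rfl⟩ _ ⟨t, rfl⟩
    rw [diag_mul he, diag_mul he]
    exact Finset.sum_congr rfl fun j _ => by rw [mul_comm]

/-- Traces of nearby projections in close II₁ factors: one inequality. -/
theorem tr_le {M N : VonNeumannAlgebra H} {ξM ξN : ℕ → H} (hM : IsII1 M ξM) (hN : IsII1 N ξN)
    {γ : ℝ} (hγ : γ ≤ 1 / 10000) (hMN : Nr M N γ) {p q : H →L[ℂ] H} (hpM : p ∈ M) (hqN : q ∈ N)
    (hp : IsPr p) (hq : IsPr q) (hpq : ‖q - p‖ ≤ 1 / 20) :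
    (trF ξM p).re ≤ (trF ξN q).re := by
  classical
  have h1n := norm_one_le' (H := H)
  have hγ0 : 0 ≤ γ := by
    obtain ⟨y, -, hy⟩ := hMN 1 (one_mem M)
    have h1 : ‖(1 : H →L[ℂ] H)‖ = 1 := norm_pr_eq ⟨star_one _, mul_one _⟩ (one_ne' hM.norm)
    rw [h1, mul_one] at hy
    exact (norm_nonneg _).trans hy
  have hnear : ∀ x ∈ M, ‖x‖ ≤ 1 → ∃ y ∈ N, ‖x - y‖ ≤ γ := by
    intro x hx hxn
    obtain ⟨y, hy, hxy⟩ := hMN x hx
    exact ⟨y, hy, hxy.trans (by nlinarith)⟩
  have key : ∀ m : ℕ, (trF ξM p).re ≤ (trF ξN q).re + 1 / 2 ^ m := by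
    intro m
    obtain ⟨e, he⟩ := dyad hM m
    have hdM : ∀ x ∈ diagS e, x ∈ M := by
      rintro _ ⟨s, rfl⟩
      exact sum_mem fun j _ => smul_mem' _ (he.mem j j)
    obtain ⟨W, hW1, hW2, hW3, hW4, -⟩ := pert N (diag_BG he) (γ := γ) (by linarith) (by
      rintro g ⟨hg, hg1, hg2⟩
      exact hnear g (hdM g hg) (norm_unit_le (by rw [hg1, hg2])))
    have hW3' : ‖W - 1‖ ≤ 1 / 200 := hW3.trans (by linarith)
    -- the images of the diagonal projections
    have hFN : ∀ j, star W * e j j * W ∈ N := by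
      intro j
      have h2 : (1 - (2 : ℂ) • e j j) ∈ {g | g ∈ diagS e ∧ star g = g ∧ g * g = 1} := by
        refine ⟨⟨fun i => 1 - 2 * (if i = j then 1 else 0), ?_⟩, ?_, ?_⟩
        · simp only [sub_smul, one_smul, Finset.sum_sub_distrib, he.sum, mul_ite, mul_one,
            mul_zero, ite_smul, zero_smul, Finset.sum_ite_eq', Finset.mem_univ, if_true]
        · rw [star_sub, star_one, star_smul, he.adj]
          congr 2
          simp
        · have hjj : e j j * e j j = e j j := by rw [he.mul, if_pos rfl]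
          simp only [sub_mul, mul_sub, one_mul, mul_one, smul_mul_smul_comm, hjj]
          rw [show (2 : ℂ) * 2 = 2 + 2 by norm_num, add_smul]
          abel
      have h3 := hW4 _ h2
      have h4 : star W * e j j * W = (1 / 2 : ℂ) • (1 - star W * (1 - (2 : ℂ) • e j j) * W) := by
        simp only [mul_sub, sub_mul, mul_one, hW1, mul_smul_comm, smul_mul_assoc, sub_sub_cancel,
          smul_smul]
        norm_num
      rw [h4]
      exact smul_mem' _ (sub_mem (one_mem N) h3)
    have hconj : ∀ a b : H →L[ℂ] H, star W * a * W * (star W * b * W) = star W * (a * b) * W := by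
      intro a b
      calc star W * a * W * (star W * b * W) = star W * a * (W * star W) * b * W := by
            simp only [mul_assoc]
        _ = star W * (a * b) * W := by rw [hW2, mul_one]; simp only [mul_assoc]
    have hFpr : ∀ x : H →L[ℂ] H, IsPr x → IsPr (star W * x * W) := by
      intro x hx
      refine ⟨?_, by rw [hconj, hx.2]⟩
      rw [star_mul, star_mul, star_star, hx.1, mul_assoc]
    have hepr : ∀ j, IsPr (e j j) := fun j => ⟨he.adj j j, by rw [he.mul, if_pos rfl]⟩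
    have hnr : ∀ x : H →L[ℂ] H, IsPr x → ‖star W * x * W - x‖ ≤ 1 / 20 := by
      intro x hx
      refine (conj_near hW1 hW3').trans ?_
      have := norm_pr_le hx
      nlinarith [norm_nonneg x]
    have hle : ∀ i j, (trF ξN (star W * e j j * W)).re ≤ (trF ξN (star W * e i i * W)).re := by
      intro i j
      have hv : star (e i j) * e i j = e j j := by rw [he.adj, he.mul, if_pos rfl]
      have hvn : ‖e i j‖ ≤ 1 := norm_pi_le hv (hepr j)
      obtain ⟨y, hy, hvy⟩ := hnear _ (he.mem i j) hvn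
      obtain ⟨u, hu, hu1, hu2⟩ := transfer N (hFN j) (hFN i) (hFpr _ (hepr j)) (hFpr _ (hepr i))
        (hepr j) (hepr i) hv (by rw [he.mul, if_pos rfl]) (hnr _ (hepr j)) (hnr _ (hepr i)) hy
        (hvy.trans (by linarith))
      exact tr_sub_le hN hu hu1 (hFpr _ (hepr j)) (hFpr _ (hepr i)) hu2
    have hsum : ∑ j, (trF ξN (star W * e j j * W)).re = 1 := by
      rw [← Complex.re_sum, ← trF_sum hN.norm, ← Finset.sum_mul, ← Finset.mul_sum, he.sum,
        mul_one, hW1, trF_one hN.norm, Complex.one_re]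
    have hF : ∀ j, (trF ξN (star W * e j j * W)).re = 1 / 2 ^ m := by
      intro j
      have h2 : ∀ i, (trF ξN (star W * e i i * W)).re = (trF ξN (star W * e j j * W)).re :=
        fun i => le_antisymm (hle j i) (hle i j)
      simp only [h2, Finset.sum_const, Finset.card_univ, Fintype.card_fin, nsmul_eq_mul] at hsum
      push_cast at hsum
      field_simp
      rw [mul_comm]; exact hsum
    -- the number of pieces
    set t : ℝ := (trF ξM p).re with ht
    have ht0 : 0 ≤ t := tr_pr_nonneg hp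
    have ht1 : t ≤ 1 := by
      have := norm_trF_le hM.norm p
      have h3 := norm_pr_le hp
      exact (Complex.re_le_norm _).trans (this.trans h3)
    set k : ℕ := ⌊2 ^ m * t⌋₊ with hk
    have hk1 : (k : ℝ) ≤ 2 ^ m * t := Nat.floor_le (by positivity)
    have hk2 : 2 ^ m * t < k + 1 := Nat.lt_floor_add_one _
    have hkL : k ≤ 2 ^ m := by
      have : (k : ℝ) ≤ 2 ^ m := hk1.trans (by nlinarith [pow_pos (show (0 : ℝ) < 2 by norm_num) m])
      exact_mod_cast this
    obtain ⟨s, -, hs⟩ := Finset.exists_subset_card_eq (s := (Finset.univ : Finset (Fin (2 ^ m))))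
      (n := k) (by simpa using hkL)
    set E : H →L[ℂ] H := ∑ j ∈ s, e j j with hE
    have hEpr : IsPr E := MU_pr he s
    have hEM : E ∈ M := sum_mem fun j _ => he.mem j j
    have hEt : (trF ξM E).re = k / 2 ^ m := by
      rw [hE, trF_sum hM.norm, Finset.sum_congr rfl fun j _ => MU_tr hM he j, Finset.sum_const,
        hs, nsmul_eq_mul]
      have : ((k : ℂ) * (1 / ((2 ^ m : ℕ) : ℂ))) = (((k : ℝ) / 2 ^ m : ℝ) : ℂ) := by
        push_cast; ring
      rw [this, Complex.ofReal_re]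
    obtain ⟨v, hv, hv1, hv2⟩ := sub_of_le hM hpM hEM hp hEpr (by
      rw [hEt, div_le_iff₀ (by positivity)]
      linarith)
    have hvn : ‖v‖ ≤ 1 := norm_pi_le hv1 hEpr
    obtain ⟨y, hy, hvy⟩ := hnear v hv hvn
    have hFE : star W * E * W ∈ N := by
      rw [hE, Finset.mul_sum, Finset.sum_mul]
      exact sum_mem fun j _ => hFN j
    obtain ⟨u, hu, hu1, hu2⟩ := transfer N hFE hqN (hFpr _ hEpr) hq hEpr hp hv1 hv2
      (hnr _ hEpr) hpq hy (hvy.trans (by linarith))
    have h5 := tr_sub_le hN hu hu1 (hFpr _ hEpr) hq hu2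
    have h6 : (trF ξN (star W * E * W)).re = k / 2 ^ m := by
      rw [hE, Finset.mul_sum, Finset.sum_mul, trF_sum hN.norm, Complex.re_sum,
        Finset.sum_congr rfl fun j _ => hF j, Finset.sum_const, hs, nsmul_eq_mul]
      ring
    rw [h6] at h5
    have h7 : t ≤ (k + 1) / 2 ^ m := by
      rw [le_div_iff₀ (by positivity)]
      linarith
    rw [add_div] at h7
    linarith
  refine le_of_forall_pos_le_add fun ε hε => ?_
  obtain ⟨m, hm⟩ := exists_pow_lt_of_lt_one hε (show (1 / 2 : ℝ) < 1 by norm_num)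
  refine (key m).trans ?_
  have : (1 : ℝ) / 2 ^ m = (1 / 2) ^ m := by rw [one_div_pow]
  rw [this]
  linarith

/-- Nearby projections in close II₁ factors have the same trace. -/
theorem tr_eq {M N : VonNeumannAlgebra H} {ξM ξN : ℕ → H} (hM : IsII1 M ξM) (hN : IsII1 N ξN)
    {γ : ℝ} (hγ : γ ≤ 1 / 10000) (hMN : Nr M N γ) (hNM : Nr N M γ) {p q : H →L[ℂ] H}
    (hpM : p ∈ M) (hqN : q ∈ N) (hp : IsPr p) (hq : IsPr q) (hpq : ‖q - p‖ ≤ 1 / 20) :
    trF ξM p = trF ξN q := by
  apply Complex.ext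
  · exact le_antisymm (tr_le hM hN hγ hMN hpM hqN hp hq hpq)
      (tr_le hN hM hγ hNM hqN hpM hq hp (by rw [norm_sub_rev]; exact hpq))
  · have h1 := congrArg Complex.im (trF_star (ξ := ξM) p)
    have h2 := congrArg Complex.im (trF_star (ξ := ξN) q)
    rw [hp.1, Complex.conj_im] at h1
    rw [hq.1, Complex.conj_im] at h2
    linarith

end H203R3.CC
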