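import Mathlib
import Pool.Agent.H203R3.CC.TrEq

/-!
Maximal abelian subalgebras, and the symmetries in the commutant given by vectors.
-/

open scoped ComplexOrder InnerProductSpace ComplexConjugate ENNReal
open Finset Filter Topology

noncomputable section

namespace H203R3.CC

open H759R2.Kad H710R2.DP

variable {H : Type} [NormedAddCommGroup H] [InnerProductSpace ℂ H] [CompleteSpace H]

/-- The relative commutant of a set. -/
def relc (M : VonNeumannAlgebra H) (S : Set (H →L[ℂ] H)) : VonNeumannAlgebra H where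
  toStarSubalgebra := StarSubalgebra.centralizer ℂ
    (Set.centralizer (M : Set (H →L[ℂ] H)) ∪ S)
  centralizer_centralizer' := by
    change Set.centralizer (Set.centralizer (StarSubalgebra.centralizer ℂ
      (Set.centralizer (M : Set (H →L[ℂ] H)) ∪ S) : Set (H →L[ℂ] H))) = _
    rw [StarSubalgebra.coe_centralizer]
    rw [Set.centralizer_centralizer_centralizer]
    rfl

theorem mem_relc {M : VonNeumannAlgebra H} {S : Set (H →L[ℂ] H)} (st : ∀ s ∈ S, star s = s)
    {x : H →L[ℂ] H} : x ∈ relc M S ↔ x ∈ M ∧ ∀ s ∈ S, s * x = x * s := by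
  have h1 : x ∈ relc M S ↔ x ∈ StarSubalgebra.centralizer ℂ
    (Set.centralizer (M : Set (H →L[ℂ] H)) ∪ S) := Iff.rfl
  rw [h1, StarSubalgebra.mem_centralizer_iff]
  constructor
  · intro h
    refine ⟨?_, fun s hs => ?_⟩
    · have : x ∈ Set.centralizer (Set.centralizer (M : Set (H →L[ℂ] H))) := by
        intro g hg
        exact (h g (Or.inl hg)).1
      rw [VonNeumannAlgebra.centralizer_centralizer] at this
      exact this
    · exact (h s (Or.inr hs)).1
  · rintro ⟨h2, h3⟩ g hg
    rcases hg with hg | hg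
    · refine ⟨?_, ?_⟩
      · exact (hg x h2).symm
      · have := hg (star x) (star_mem (S := VonNeumannAlgebra H) h2)
        have h4 := congrArg star this
        simpa [star_mul] using h4
    · refine ⟨h3 g hg, ?_⟩
      rw [st g hg]
      exact h3 g hg

/-- `A` is a maximal abelian subalgebra of `M`. -/
structure IsMasa (M A : VonNeumannAlgebra H) : Prop where
  le : ∀ x ∈ A, x ∈ M
  ab : ∀ x ∈ A, ∀ y ∈ A, x * y = y * x
  max : ∀ x ∈ M, (∀ a ∈ A, a * x = x * a) → x ∈ A

theorem exists_masa (M : VonNeumannAlgebra H) {r : H →L[ℂ] H} (hrM : r ∈ M) (hr : star r = r) :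
    ∃ A, IsMasa M A ∧ r ∈ A := by
  obtain ⟨S, hrS, hS⟩ := zorn_subset_nonempty
    {S : Set (H →L[ℂ] H) | (∀ s ∈ S, s ∈ M ∧ star s = s) ∧ ∀ s ∈ S, ∀ t ∈ S, s * t = t * s}
    (by
      intro c hc hch _
      refine ⟨⋃₀ c, ⟨?_, ?_⟩, fun s hs => Set.subset_sUnion_of_mem hs⟩
      · rintro s ⟨S, hS, hs⟩
        exact (hc hS).1 s hs
      · rintro s ⟨S, hS, hs⟩ t ⟨T, hT, ht⟩
        rcases hch.total hS hT with h | h
        · exact (hc hT).2 s (h hs) t ht
        · exact (hc hS).2 s hs t (h ht))
    {r} (by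
      refine ⟨?_, ?_⟩
      · rintro s rfl; exact ⟨hrM, hr⟩
      · rintro s rfl t rfl; rfl)
  have hS1 := hS.prop.1
  have hS2 := hS.prop.2
  have hst : ∀ s ∈ S, star s = s := fun s hs => (hS1 s hs).2
  have hmax : ∀ x ∈ relc M S, star x = x → x ∈ S := by
    intro x hx hxs
    rw [mem_relc hst] at hx
    have h1 : insert x S ∈ {S : Set (H →L[ℂ] H) |
        (∀ s ∈ S, s ∈ M ∧ star s = s) ∧ ∀ s ∈ S, ∀ t ∈ S, s * t = t * s} := by
      refine ⟨?_, ?_⟩
      · intro s hs
        rcases Set.mem_insert_iff.1 hs with rfl | hs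
        · exact ⟨hx.1, hxs⟩
        · exact hS1 s hs
      · intro s hs t ht
        rcases Set.mem_insert_iff.1 hs with h3 | h3 <;>
          rcases Set.mem_insert_iff.1 ht with h4 | h4
        · rw [h3, h4]
        · rw [h3]; exact (hx.2 t h4).symm
        · rw [h4]; exact hx.2 s h3
        · exact hS2 s h3 t h4
    exact hS.le_of_ge h1 (Set.subset_insert x S) (Set.mem_insert x S)
  have hSA : ∀ s ∈ S, s ∈ relc M S := by
    intro s hs
    rw [mem_relc hst]
    exact ⟨(hS1 s hs).1, fun t ht => hS2 t ht s hs⟩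
  refine ⟨relc M S, ⟨?_, ?_, ?_⟩, hSA r (hrS rfl)⟩
  · intro x hx
    exact ((mem_relc hst).1 hx).1
  · intro x hx y hy
    have hxs := star_mem (S := VonNeumannAlgebra H) hx
    have h1 : x + star x ∈ S := hmax _ (add_mem hx hxs) (by rw [star_add, star_star, add_comm])
    have h2 : Complex.I • (x - star x) ∈ S := by
      refine hmax _ (smul_mem' _ (sub_mem hx hxs)) ?_
      rw [star_smul, star_sub, star_star]
      have : star Complex.I = - Complex.I := by
        rw [Complex.star_def, Complex.conj_I]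
      rw [this, neg_smul, ← smul_neg, neg_sub]
    have h3 := ((mem_relc hst).1 hy).2 _ h1
    have h4 := ((mem_relc hst).1 hy).2 _ h2
    have h5 : (x - star x) * y = y * (x - star x) := by
      rw [smul_mul_assoc, mul_smul_comm] at h4
      have := congrArg (fun z => (-Complex.I) • z) h4
      simpa [smul_smul] using this
    have h6 : (2 : ℂ) • (x * y) = (2 : ℂ) • (y * x) := by
      have e1 : (2 : ℂ) • (x * y) = (x + star x) * y + (x - star x) * y := by
        rw [two_smul]; simp only [add_mul, sub_mul]; abel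
      have e2 : (2 : ℂ) • (y * x) = y * (x + star x) + y * (x - star x) := by
        rw [two_smul]; simp only [mul_add, mul_sub]; abel
      rw [e1, e2, h3, h5]
    have h7 := congrArg (fun z => (1 / 2 : ℂ) • z) h6
    simpa [smul_smul] using h7
  · intro x hxM hx
    rw [mem_relc hst]
    exact ⟨hxM, fun s hs => hx s (hSA s hs)⟩

/-- The symmetries of an algebra. -/
def symm (A : VonNeumannAlgebra H) : Set (H →L[ℂ] H) := {g | g ∈ A ∧ star g = g ∧ g * g = 1}

theorem IsMasa.bg {M A : VonNeumannAlgebra H} (h : IsMasa M A) : BG (symm A) :=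
  BG_of (A := (A : Set (H →L[ℂ] H))) (one_mem A) (fun _ hx _ hy => mul_mem hx hy)
    (fun x hx y hy => h.ab x hx y hy)

theorem sym_of_pr {A : VonNeumannAlgebra H} {p : H →L[ℂ] H} (hpA : p ∈ A) (hp : IsPr p) :
    1 - (2 : ℂ) • p ∈ symm A := by
  refine ⟨sub_mem (one_mem A) (smul_mem' _ hpA), ?_, ?_⟩
  · rw [star_sub, star_one, star_smul, hp.1]
    congr 2
    simp
  · simp only [sub_mul, mul_sub, one_mul, mul_one, smul_mul_smul_comm, hp.2]
    rw [show (2 : ℂ) * 2 = 2 + 2 by norm_num, add_smul]
    abel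

theorem pr_of_sym {A : VonNeumannAlgebra H} {g : H →L[ℂ] H} (hg : g ∈ symm A) :
    (1 / 2 : ℂ) • (1 - g) ∈ A ∧ IsPr ((1 / 2 : ℂ) • (1 - g)) := by
  obtain ⟨h1, h2, h3⟩ := hg
  refine ⟨smul_mem' _ (sub_mem (one_mem A) h1), ?_, ?_⟩
  · rw [star_smul, star_sub, star_one, h2]
    congr 1
    simp
  · rw [smul_mul_smul_comm]
    have : (1 - g) * (1 - g) = (2 : ℂ) • (1 - g) := by
      rw [two_smul]
      simp only [sub_mul, mul_sub, one_mul, mul_one, h3]
      abel
    rw [this, smul_smul]
    norm_num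

/-- Induction over the elements of an abelian algebra. -/
theorem IsMasa.ind {M A : VonNeumannAlgebra H} (h : IsMasa M A) (P : (H →L[ℂ] H) → Prop)
    (hP : ∀ p ∈ A, IsPr p → P p) (h0 : P 0) (hadd : ∀ x y, P x → P y → P (x + y))
    (hsmul : ∀ (c : ℂ) x, P x → P (c • x))
    (hcl : ∀ x, (∀ ε : ℝ, 0 < ε → ∃ y, P y ∧ ‖x - y‖ ≤ ε) → P x) : ∀ a ∈ A, P a := by
  intro a ha
  apply hcl
  intro ε hε
  obtain ⟨n, c, p, hp, hn⟩ := dp_span fin_bin H A a ⟨ha, fun b hb => h.ab a ha b hb⟩ ε hε
  refine ⟨_, ?_, hn⟩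
  have : ∀ s : Finset (Fin n), P (∑ k ∈ s, c k • p k) := by
    intro s
    classical
    induction s using Finset.induction_on with
    | empty => simpa using h0
    | insert k s hk ih =>
      rw [Finset.sum_insert hk]
      exact hadd _ _ (hsmul _ _ (hP _ (hp k).2.1 (hp k).1)) ih
  exact this Finset.univ

/-- Elements commuting with the symmetries of a masa. -/
theorem IsMasa.mem_of {M A : VonNeumannAlgebra H} (h : IsMasa M A) {x : H →L[ℂ] H} (hx : x ∈ M)
    (hg : ∀ g ∈ symm A, g * x = x * g) : x ∈ A := by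
  apply h.max x hx
  apply h.ind (fun a => a * x = x * a)
  · intro p hpA hp
    have h1 := hg _ (sym_of_pr hpA hp)
    simp only [sub_mul, mul_sub, one_mul, mul_one, smul_mul_assoc, mul_smul_comm] at h1
    have h2 : (2 : ℂ) • (p * x) = (2 : ℂ) • (x * p) := by
      have := congrArg (fun z => x - z) h1
      simpa using this
    have h3 := congrArg (fun z => (1 / 2 : ℂ) • z) h2
    simpa [smul_smul] using h3
  · simp
  · intro y z hy hz
    rw [add_mul, mul_add, hy, hz]
  · intro c y hy
    rw [smul_mul_assoc, mul_smul_comm, hy]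
  · intro a ha
    rw [← sub_eq_zero, ← norm_le_zero_iff]
    refine le_of_forall_pos_le_add fun ε hε => ?_
    obtain ⟨y, hy, hay⟩ := ha (ε / (2 * (‖x‖ + 1))) (by positivity)
    have e1 : a * x - x * a = (a - y) * x - x * (a - y) := by
      rw [mul_sub, sub_mul, hy]; abel
    rw [e1, zero_add]
    calc ‖(a - y) * x - x * (a - y)‖ ≤ ‖a - y‖ * ‖x‖ + ‖x‖ * ‖a - y‖ :=
          (norm_sub_le _ _).trans (add_le_add (norm_mul_le _ _) (norm_mul_le _ _))
      _ = 2 * ‖x‖ * ‖a - y‖ := by ring
      _ ≤ 2 * (‖x‖ + 1) * (ε / (2 * (‖x‖ + 1))) := by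
          apply mul_le_mul _ hay (norm_nonneg _) (by positivity)
          linarith
      _ = ε := by field_simp

/-- Projections of the commutant on cyclic subspaces. -/
theorem proj_comm (M : VonNeumannAlgebra H) {ι : Type} (v : ι → H) :
    ∃ P ∈ M.commutant, IsPr P ∧ (∀ y ∈ M, ∀ i, P (y (v i)) = y (v i)) ∧
      ∀ η, (∀ y ∈ M, ∀ i, ⟪y (v i), η⟫_ℂ = 0) → P η = 0 := by
  set X : Set H := {x | ∃ y ∈ M, ∃ i, x = y (v i)} with hX
  set V : Submodule ℂ H := (Submodule.span ℂ X).topologicalClosure with hV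
  have hVc : IsClosed (V : Set H) := Submodule.isClosed_topologicalClosure _
  have : CompleteSpace V := hVc.completeSpace_coe
  have hXV : ∀ x ∈ X, x ∈ V := fun x hx =>
    Submodule.le_topologicalClosure _ (Submodule.subset_span hx)
  have hinv : ∀ g ∈ M, ∀ x ∈ V, g x ∈ V := by
    intro g hg
    have h1 : V ≤ V.comap (g : H →ₗ[ℂ] H) := by
      apply Submodule.topologicalClosure_minimal
      · rw [Submodule.span_le]
        rintro _ ⟨y, hy, i, rfl⟩
        exact hXV _ ⟨g * y, mul_mem hg hy, i, rfl⟩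
      · exact hVc.preimage g.continuous
    exact h1
  have hinv' : ∀ g ∈ M, ∀ x ∈ Vᗮ, g x ∈ Vᗮ := by
    intro g hg x hx
    rw [Submodule.mem_orthogonal] at hx ⊢
    intro u hu
    rw [← ContinuousLinearMap.adjoint_inner_left]
    exact hx _ (hinv _ (star_mem (S := VonNeumannAlgebra H) hg) u hu)
  have hPV : ∀ x ∈ V, V.starProjection x = x := fun x hx =>
    Submodule.starProjection_eq_self_iff.2 hx
  have hPV' : ∀ x ∈ Vᗮ, V.starProjection x = 0 := fun x hx =>
    (Submodule.starProjection_apply_eq_zero_iff V).2 hx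
  refine ⟨V.starProjection, ?_, ⟨?_, ?_⟩, ?_, ?_⟩
  · rw [VonNeumannAlgebra.mem_commutant_iff]
    intro g hg
    ext x
    have h1 : x = V.starProjection x + (x - V.starProjection x) := by abel
    have h2 : V.starProjection x ∈ V := Submodule.starProjection_apply_mem V x
    have h3 : x - V.starProjection x ∈ Vᗮ := Submodule.sub_starProjection_mem_orthogonal x
    rw [ContinuousLinearMap.mul_apply, ContinuousLinearMap.mul_apply]
    conv_rhs => rw [h1, map_add, map_add, hPV _ (hinv g hg _ h2), hPV' _ (hinv' g hg _ h3),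
      add_zero]
  · exact isSelfAdjoint_starProjection V
  · exact V.isIdempotentElem_starProjection
  · intro y hy i
    exact hPV _ (hXV _ ⟨y, hy, i, rfl⟩)
  · intro η hη
    apply hPV'
    have h1 : (Submodule.span ℂ X)ᗮ = Vᗮ := (Submodule.orthogonal_closure _).symm
    rw [← h1, Submodule.mem_orthogonal]
    intro u hu
    induction hu using Submodule.span_induction with
    | mem x hx =>
      obtain ⟨y, hy, i, rfl⟩ := hx
      exact hη y hy i
    | zero => exact inner_zero_left _
    | add x y _ _ hx hy => rw [inner_add_left, hx, hy, add_zero]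
    | smul c x _ hx => rw [inner_smul_left, hx, mul_zero]

/-- Operators of the commutant are determined on cyclic families. -/
theorem comm_ext {M : VonNeumannAlgebra H} {ι : Type} {v : ι → H} {S T : H →L[ℂ] H}
    (hS : S ∈ M.commutant) (hT : T ∈ M.commutant) (h1 : ∀ i, S (v i) = T (v i))
    (h2 : ∀ η, (∀ y ∈ M, ∀ i, ⟪y (v i), η⟫_ℂ = 0) → S η = T η) : S = T := by
  obtain ⟨P, hP, hPp, hP1, hP2⟩ := proj_comm M v
  -- the difference vanishes on the range of `P` and of `1 - P`
  have h3 : ∀ y ∈ M, ∀ i, S (y (v i)) = T (y (v i)) := by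
    intro y hy i
    have e1 := congrArg (fun z : H →L[ℂ] H => z (v i)) (comm_of_mem hS hy)
    have e2 := congrArg (fun z : H →L[ℂ] H => z (v i)) (comm_of_mem hT hy)
    simp only [ContinuousLinearMap.mul_apply] at e1 e2
    rw [e1, e2, h1]
  have h4 : ∀ η, P η = 0 → S η = T η := by
    intro η hη
    apply h2
    intro y hy i
    rw [← hP1 y hy i, ← ContinuousLinearMap.adjoint_inner_right]
    have : ContinuousLinearMap.adjoint P = P := hPp.1
    rw [this, hη, inner_zero_right]
  have h5 : (S - T) * P = 0 := by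
    -- adjoint: `P * star (S - T) = 0`
    have h6 : P * star (S - T) = 0 := by
      ext η
      rw [ContinuousLinearMap.mul_apply, ContinuousLinearMap.zero_apply]
      apply hP2
      intro y hy i
      rw [ContinuousLinearMap.star_eq_adjoint, ContinuousLinearMap.adjoint_inner_right,
        ContinuousLinearMap.sub_apply, h3 y hy i, sub_self, inner_zero_left]
    have := congrArg star h6
    rwa [star_mul, star_star, star_zero, hPp.1] at this
  ext η
  have h7 : η = P η + (η - P η) := by abel
  have h8 : S (P η) = T (P η) := by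
    have := congrArg (fun z : H →L[ℂ] H => z η) h5
    simp only [ContinuousLinearMap.mul_apply, ContinuousLinearMap.sub_apply,
      ContinuousLinearMap.zero_apply] at this
    exact sub_eq_zero.1 this
  have h9 : P (η - P η) = 0 := by
    have := congrArg (fun z : H →L[ℂ] H => z η) hPp.2
    simp only [ContinuousLinearMap.mul_apply] at this
    rw [map_sub, this, sub_self]
  rw [h7, map_add, map_add, h8, h4 _ h9]

end H203R3.CC
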