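import Mathlib
import Pool.Agent.H203R3.CC.Masa

/-!
The main step: transporting families of vectors.
-/

open scoped ComplexOrder InnerProductSpace ComplexConjugate ENNReal
open Finset Filter Topology

noncomputable section

namespace H203R3.CC

open H759R2.Kad H710R2.DP

variable {H : Type} [NormedAddCommGroup H] [InnerProductSpace ℂ H] [CompleteSpace H]

/-- `n` orthogonal copies of `L²(M) r` in `H`. -/
def EqE (M : VonNeumannAlgebra H) (ξ : ℕ → H) (r : H →L[ℂ] H) {n : ℕ} (ζ : Fin n → H) : Prop :=
  ∀ i j, ∀ x ∈ M, ⟪ζ j, x (ζ i)⟫_ℂ = if i = j then trF ξ (x * r) else 0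

/-- The symmetries of the commutant that act on the `ζᵢ` as symmetries of `A`. -/
def RG (M A : VonNeumannAlgebra H) {n : ℕ} (ζ : Fin n → H) : Set (H →L[ℂ] H) :=
  {R | R ∈ M.commutant ∧ star R = R ∧ R * R = 1 ∧
    (∃ c : Fin n → (H →L[ℂ] H), (∀ i, c i ∈ symm A) ∧ ∀ i, R (ζ i) = c i (ζ i)) ∧
    ∀ η, (∀ y ∈ M, ∀ i, ⟪y (ζ i), η⟫_ℂ = 0) → R η = η}

theorem RG_comm {M A : VonNeumannAlgebra H} (hA : IsMasa M A) {n : ℕ} {ζ : Fin n → H}
    {R S : H →L[ℂ] H} (hR : R ∈ RG M A ζ) (hS : S ∈ RG M A ζ) : R * S = S * R := by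
  obtain ⟨hR1, -, -, ⟨c, hc, hRc⟩, hR5⟩ := hR
  obtain ⟨hS1, -, -, ⟨d, hd, hSd⟩, hS5⟩ := hS
  refine comm_ext (v := ζ) (mul_mem hR1 hS1) (mul_mem hS1 hR1) ?_ ?_
  · intro i
    have e1 := congrArg (fun z : H →L[ℂ] H => z (ζ i)) (comm_of_mem hR1 (hA.le _ (hd i).1))
    have e2 := congrArg (fun z : H →L[ℂ] H => z (ζ i)) (comm_of_mem hS1 (hA.le _ (hc i).1))
    have e3 := congrArg (fun z : H →L[ℂ] H => z (ζ i)) (hA.ab _ (hc i).1 _ (hd i).1)
    simp only [ContinuousLinearMap.mul_apply] at e1 e2 e3 ⊢
    rw [hSd, e1, hRc, e2, hSd, ← e3]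
  · intro η hη
    rw [ContinuousLinearMap.mul_apply, ContinuousLinearMap.mul_apply, hS5 η hη, hR5 η hη, hS5 η hη]

theorem RG_bg {M A : VonNeumannAlgebra H} (hA : IsMasa M A) {n : ℕ} (ζ : Fin n → H) :
    BG (RG M A ζ) := by
  refine ⟨?_, ?_, ?_, ?_, ?_⟩
  · refine ⟨one_mem _, star_one _, mul_one _, ⟨fun _ => 1, fun _ => hA.bg.one, fun _ => rfl⟩, ?_⟩
    intro η _; rfl
  · intro R hR S hS
    have hcomm := RG_comm hA hR hS
    obtain ⟨hR1, hR2, hR3, ⟨c, hc, hRc⟩, hR5⟩ := hR
    obtain ⟨hS1, hS2, hS3, ⟨d, hd, hSd⟩, hS5⟩ := hS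
    refine ⟨mul_mem hR1 hS1, by rw [star_mul, hR2, hS2, hcomm], ?_,
      ⟨fun i => d i * c i, fun i => hA.bg.mul _ (hd i) _ (hc i), ?_⟩, ?_⟩
    · calc R * S * (R * S) = R * (S * R) * S := by simp only [mul_assoc]
        _ = (R * R) * (S * S) := by rw [← hcomm]; simp only [mul_assoc]
        _ = 1 := by rw [hR3, hS3, mul_one]
    · intro i
      have e1 := congrArg (fun z : H →L[ℂ] H => z (ζ i)) (comm_of_mem hR1 (hA.le _ (hd i).1))
      simp only [ContinuousLinearMap.mul_apply] at e1 ⊢
      rw [hSd, e1, hRc]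
    · intro η hη
      rw [ContinuousLinearMap.mul_apply, hS5 η hη, hR5 η hη]
  · intro R hR S hS
    exact RG_comm hA hR hS
  · intro R hR; exact hR.2.1
  · intro R hR; exact hR.2.2.1

/-- Existence of the symmetries of the commutant. -/
theorem RG_ex {M A : VonNeumannAlgebra H} {ξ : ℕ → H} (hM : IsII1 M ξ) (hA : IsMasa M A)
    {r : H →L[ℂ] H} (hrA : r ∈ A) {n : ℕ} {ζ : Fin n → H} (hζ : EqE M ξ r ζ)
    (c : Fin n → (H →L[ℂ] H)) (hc : ∀ i, c i ∈ symm A) :
    ∃ R ∈ RG M A ζ, ∀ i, R (ζ i) = c i (ζ i) := by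
  set p : Fin n → (H →L[ℂ] H) := fun i => (1 / 2 : ℂ) • (1 - c i) with hp
  have hpA : ∀ i, p i ∈ A := fun i => (pr_of_sym (hc i)).1
  have hpp : ∀ i, IsPr (p i) := fun i => (pr_of_sym (hc i)).2
  obtain ⟨P, hP, hPp, hP1, hP2⟩ := proj_comm M (fun i => p i (ζ i))
  have hE : ∀ i, P (ζ i) = p i (ζ i) := by
    intro i
    have h1 : ζ i = p i (ζ i) + (1 - p i) (ζ i) := by
      rw [ContinuousLinearMap.sub_apply, ContinuousLinearMap.one_apply]; abel
    have h2 : P ((1 - p i) (ζ i)) = 0 := by
      apply hP2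
      intro y hy j
      have e1 : ⟪y (p j (ζ j)), (1 - p i) (ζ i)⟫_ℂ =
          ⟪ζ j, (star (p j) * star y * (1 - p i)) (ζ i)⟫_ℂ := by
        simp only [ContinuousLinearMap.mul_apply, ContinuousLinearMap.star_eq_adjoint]
        rw [ContinuousLinearMap.adjoint_inner_right, ContinuousLinearMap.adjoint_inner_right]
      rw [e1, hζ i j _ (mul_mem (mul_mem (star_mem (S := VonNeumannAlgebra H) (hA.le _ (hpA j)))
        (star_mem (S := VonNeumannAlgebra H) hy)) (sub_mem (one_mem M) (hA.le _ (hpA i))))]
      split_ifs with hij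
      · subst hij
        rw [(hpp i).1, mul_assoc, mul_assoc, hM.tracial _ (hA.le _ (hpA i)) _
          (mul_mem (star_mem (S := VonNeumannAlgebra H) hy)
            (mul_mem (sub_mem (one_mem M) (hA.le _ (hpA i))) (hA.le _ hrA)))]
        have e2 : star y * ((1 - p i) * r) * p i = 0 := by
          have : (1 - p i) * r * p i = 0 := by
            rw [mul_assoc, hA.ab _ hrA _ (hpA i), ← mul_assoc, sub_mul, one_mul, (hpp i).2,
              sub_self, zero_mul]
          rw [mul_assoc, this, mul_zero]
        rw [e2, trF_zero]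
      · rfl
    have h3 := hP1 1 (one_mem M) i
    rw [ContinuousLinearMap.one_apply] at h3
    calc P (ζ i) = P (p i (ζ i)) + P ((1 - p i) (ζ i)) := by rw [← map_add, ← h1]
      _ = p i (ζ i) := by rw [h2, h3, add_zero]
  have hsym := sym_of_pr (A := M.commutant) hP hPp
  have hact : ∀ i, (1 - (2 : ℂ) • P) (ζ i) = c i (ζ i) := by
    intro i
    rw [ContinuousLinearMap.sub_apply, ContinuousLinearMap.one_apply,
      ContinuousLinearMap.smul_apply, hE, hp]
    simp only [ContinuousLinearMap.smul_apply, ContinuousLinearMap.sub_apply,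
      ContinuousLinearMap.one_apply, smul_smul]
    norm_num
  refine ⟨1 - (2 : ℂ) • P, ⟨hsym.1, hsym.2.1, hsym.2.2, ⟨c, hc, hact⟩, ?_⟩, hact⟩
  intro η hη
  have h1 : P η = 0 := by
    apply hP2
    intro y hy i
    exact hη (y * p i) (mul_mem hy (hA.le _ (hpA i))) i
  rw [ContinuousLinearMap.sub_apply, ContinuousLinearMap.one_apply,
    ContinuousLinearMap.smul_apply, h1, smul_zero, sub_zero]

/-- The main step. -/
theorem main_step {M N : VonNeumannAlgebra H} {ξM ξN : ℕ → H} (hM : IsII1 M ξM)
    (hN : IsII1 N ξN) {γ : ℝ} (hγ : γ ≤ 1 / 2000000) (hMN : Nr M N γ) (hNM : Nr N M γ)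
    (hMN' : Nr M.commutant N.commutant γ) {r : H →L[ℂ] H} (hrM : r ∈ M) (hr : IsPr r) {n : ℕ}
    {ζ : Fin n → H} (hζ : EqE M ξM r ζ) :
    ∃ r' ∈ N, IsPr r' ∧ trF ξN r' = trF ξM r ∧ ∃ ζ' : Fin n → H, EqE N ξN r' ζ' := by
  classical
  obtain ⟨A, hA, hrA⟩ := exists_masa M hrM hr.1
  have hGb := hA.bg
  have hRb := RG_bg hA ζ
  have hγ0 : 0 ≤ γ := by
    obtain ⟨y, -, hy⟩ := hMN 1 (one_mem M)
    have h1 : ‖(1 : H →L[ℂ] H)‖ = 1 := norm_pr_eq ⟨star_one _, mul_one _⟩ (one_ne' hM.norm)
    rw [h1, mul_one] at hy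
    exact (norm_nonneg _).trans hy
  obtain ⟨W, hW1, hW2, hW3, hWG, hWR⟩ := pert2 N hGb hRb
    (fun g hg R hR => (comm_of_mem hR.1 (hA.le _ hg.1)).symm) (γ := γ) (by linarith)
    (by
      intro g hg
      obtain ⟨y, hy, hgy⟩ := hMN g (hA.le _ hg.1)
      refine ⟨y, hy, hgy.trans ?_⟩
      have := hGb.norm_le hg
      nlinarith)
    (by
      intro g hg
      obtain ⟨y, hy, hgy⟩ := hMN' g hg.1
      refine ⟨y, hy, hgy.trans ?_⟩
      have := hRb.norm_le hg
      nlinarith)
  have hW3' : ‖W - 1‖ ≤ 1 / 200 := hW3.trans (by linarith)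
  have hW4 : ‖star W - 1‖ ≤ 1 / 200 := by
    have : star W - 1 = star (W - 1) := by rw [star_sub, star_one]
    rw [this, norm_star]; exact hW3'
  have hWn : ‖W‖ ≤ 1 := norm_unit_le hW1
  have hconj : ∀ a b : H →L[ℂ] H, star W * a * W * (star W * b * W) = star W * (a * b) * W := by
    intro a b
    calc star W * a * W * (star W * b * W) = star W * a * (W * star W) * b * W := by
          simp only [mul_assoc]
      _ = star W * (a * b) * W := by rw [hW2, mul_one]; simp only [mul_assoc]
  have hback : ∀ a : H →L[ℂ] H, star W * (W * a * star W) * W = a := by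
    intro a
    calc star W * (W * a * star W) * W = (star W * W) * a * (star W * W) := by
          simp only [mul_assoc]
      _ = a := by rw [hW1, one_mul, mul_one]
  have hforw : ∀ a : H →L[ℂ] H, W * (star W * a * W) * star W = a := by
    intro a
    calc W * (star W * a * W) * star W = (W * star W) * a * (W * star W) := by
          simp only [mul_assoc]
      _ = a := by rw [hW2, one_mul, mul_one]
  -- the algebra `W* A W` is contained in `N`
  have hWA : ∀ a ∈ A, star W * a * W ∈ N := by
    apply hA.ind (fun a => star W * a * W ∈ N)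
    · intro p hpA hp
      have h3 := hWG _ (sym_of_pr hpA hp)
      have h4 : star W * p * W = (1 / 2 : ℂ) • (1 - star W * (1 - (2 : ℂ) • p) * W) := by
        simp only [mul_sub, sub_mul, mul_one, hW1, mul_smul_comm, smul_mul_assoc, sub_sub_cancel,
          smul_smul]
        norm_num
      rw [h4]
      exact smul_mem' _ (sub_mem (one_mem N) h3)
    · simp
    · intro x y hx hy
      rw [mul_add, add_mul]
      exact add_mem hx hy
    · intro c x hx
      rw [mul_smul_comm, smul_mul_assoc]
      exact smul_mem' _ hx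
    · intro x hx
      apply mem_of_near
      intro ε hε
      obtain ⟨y, hy, hxy⟩ := hx ε hε
      refine ⟨_, hy, ?_⟩
      have e1 : star W * x * W - star W * y * W = star W * (x - y) * W := by
        rw [mul_sub, sub_mul]
      rw [e1]
      calc ‖star W * (x - y) * W‖ ≤ (‖star W‖ * ‖x - y‖) * ‖W‖ := by
            refine (norm_mul_le _ _).trans ?_
            gcongr
            exact norm_mul_le _ _
        _ ≤ (1 * ε) * 1 := by
            rw [norm_star]
            gcongr
        _ = ε := by ring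
  -- traces agree on `A`
  have hWpr : ∀ x : H →L[ℂ] H, IsPr x → IsPr (star W * x * W) := by
    intro x hx
    refine ⟨?_, by rw [hconj, hx.2]⟩
    rw [star_mul, star_mul, star_star, hx.1, mul_assoc]
  have htrA : ∀ a ∈ A, trF ξN (star W * a * W) = trF ξM a := by
    apply hA.ind (fun a => trF ξN (star W * a * W) = trF ξM a)
    · intro p hpA hp
      refine (tr_eq hM hN (by linarith) hMN hNM (hA.le _ hpA) (hWA _ hpA) hp (hWpr _ hp) ?_).symm
      refine (conj_near hW1 hW3').trans ?_
      have := norm_pr_le hp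
      nlinarith [norm_nonneg p]
    · simp [trF_zero]
    · intro x y hx hy
      rw [mul_add, add_mul, trF_add hN.norm, trF_add hM.norm, hx, hy]
    · intro c x hx
      rw [mul_smul_comm, smul_mul_assoc, trF_smul, trF_smul, hx]
    · intro x hx
      rw [← sub_eq_zero, ← norm_le_zero_iff]
      refine le_of_forall_pos_le_add fun ε hε => ?_
      obtain ⟨y, hy, hxy⟩ := hx (ε / 2) (by positivity)
      have e1 : trF ξN (star W * x * W) - trF ξM x =
          trF ξN (star W * (x - y) * W) - trF ξM (x - y) := by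
        rw [mul_sub, sub_mul, trF_sub hN.norm, trF_sub hM.norm, hy]; ring
      rw [e1, zero_add]
      have e2 : ‖star W * (x - y) * W‖ ≤ ε / 2 := by
        calc ‖star W * (x - y) * W‖ ≤ (‖star W‖ * ‖x - y‖) * ‖W‖ := by
              refine (norm_mul_le _ _).trans ?_
              gcongr
              exact norm_mul_le _ _
          _ ≤ (1 * (ε / 2)) * 1 := by
              rw [norm_star]
              gcongr
          _ = ε / 2 := by ring
      refine (norm_sub_le _ _).trans ?_
      have e3 := (norm_trF_le hN.norm (star W * (x - y) * W)).trans e2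
      have e4 := (norm_trF_le hM.norm (x - y)).trans hxy
      linarith
  -- `W* A W` is maximal abelian in `N`
  have hhalf : ∀ b : H →L[ℂ] H, star W * b * W ∈ N → (∀ g ∈ symm A, g * b = b * g) →
      ∃ a ∈ A, ‖b - a‖ ≤ 1 / 2 * ‖b‖ := by
    intro b hb hbg
    have h1 : ‖star W * b * W‖ ≤ ‖b‖ := by
      calc ‖star W * b * W‖ ≤ (‖star W‖ * ‖b‖) * ‖W‖ := by
            refine (norm_mul_le _ _).trans ?_
            gcongr
            exact norm_mul_le _ _
        _ ≤ (1 * ‖b‖) * 1 := by
            rw [norm_star]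
            gcongr
        _ = ‖b‖ := by ring
    obtain ⟨x, hx, hbx⟩ := hNM _ hb
    have h2 : ‖b - x‖ ≤ 1 / 2 * ‖b‖ := by
      have e1 : b - x = (star W * b * W - x) - (star W * b * W - b) := by abel
      rw [e1]
      refine (norm_sub_le _ _).trans ?_
      have h3 := conj_near (x := b) hW1 hW3'
      have h4 : γ * ‖star W * b * W‖ ≤ γ * ‖b‖ := by gcongr
      nlinarith [norm_nonneg b]
    obtain ⟨S, -, hS⟩ := IsM.ex hGb (f := fun g => g * x * g) (d := ‖x‖) (fun g hg => by
      have := hGb.norm_le hg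
      calc ‖g * x * g‖ ≤ (‖g‖ * ‖x‖) * ‖g‖ := by
            refine (norm_mul_le _ _).trans ?_
            gcongr
            exact norm_mul_le _ _
        _ ≤ (1 * ‖x‖) * 1 := by gcongr
        _ = ‖x‖ := by ring)
    refine ⟨S, ?_, ?_⟩
    · apply hA.mem_of
      · exact hS.mem fun g hg => mul_mem (mul_mem (hA.le _ hg.1) hx) (hA.le _ hg.1)
      · intro k hk
        have h3 : k * S * k = S := by
          refine ((hS.mul_left k).mul_right k).uniq ?_
          refine (hS.shift hk).congr fun g hg => ?_
          rw [hGb.comm g hg k hk]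
          simp only [mul_assoc]
          rw [hGb.comm k hk g hg]
        calc k * S = k * (k * S * k) := by rw [h3]
          _ = (k * k) * S * k := by simp only [mul_assoc]
          _ = S * k := by rw [hGb.sq k hk, one_mul]
    · have h3 : IsM hGb (fun g => b - g * x * g) (b - S) := (IsM.const b).sub hS
      refine h3.norm_le fun g hg => ?_
      have e1 : b - g * x * g = g * (b - x) * g := by
        rw [mul_sub, sub_mul, hbg g hg, mul_assoc b, hGb.sq g hg, mul_one]
      rw [e1]
      have := hGb.norm_le hg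
      calc ‖g * (b - x) * g‖ ≤ (‖g‖ * ‖b - x‖) * ‖g‖ := by
            refine (norm_mul_le _ _).trans ?_
            gcongr
            exact norm_mul_le _ _
        _ ≤ (1 * (1 / 2 * ‖b‖)) * 1 := by gcongr
        _ = 1 / 2 * ‖b‖ := by ring
  have hmasa : ∀ b : H →L[ℂ] H, star W * b * W ∈ N → (∀ g ∈ symm A, g * b = b * g) → b ∈ A := by
    intro b hb hbg
    have h1 : ∀ k : ℕ, ∃ a ∈ A, ‖b - a‖ ≤ (1 / 2) ^ k * ‖b‖ := by
      intro k
      induction k with
      | zero => exact ⟨0, zero_mem A, by simp⟩
      | succ k ih =>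
        obtain ⟨a, ha, hba⟩ := ih
        obtain ⟨a', ha', hba'⟩ := hhalf (b - a) (by
          rw [mul_sub, sub_mul]
          exact sub_mem hb (hWA a ha)) (by
          intro g hg
          rw [mul_sub, sub_mul, hbg g hg, hA.ab g hg.1 a ha])
        refine ⟨a + a', add_mem ha ha', ?_⟩
        rw [← sub_sub]
        refine hba'.trans ?_
        rw [pow_succ]
        nlinarith
    apply mem_of_near
    intro ε hε
    have h2 : Tendsto (fun k : ℕ => (1 / 2 : ℝ) ^ k * ‖b‖) atTop (𝓝 (0 * ‖b‖)) :=
      (tendsto_pow_atTop_nhds_zero_of_lt_one (by norm_num) (by norm_num)).mul_const _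
    rw [zero_mul] at h2
    obtain ⟨k, hk⟩ := (h2.eventually (gt_mem_nhds hε)).exists
    obtain ⟨a, ha, hba⟩ := h1 k
    exact ⟨a, ha, hba.trans hk.le⟩
  -- the new data
  have hr' := hWpr r hr
  refine ⟨star W * r * W, hWA r hrA, hr', htrA r hrA, fun i => star W (ζ i), ?_⟩
  have hinner : ∀ (u : H →L[ℂ] H) (x y : H), ⟪star W x, (star W * u * W) (star W y)⟫_ℂ =
      ⟪x, u y⟫_ℂ := by
    intro u x y
    have e1 : W (star W y) = y := by
      have := congrArg (fun z : H →L[ℂ] H => z y) hW2
      simpa using this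
    have e2 : W (star W (u y)) = u y := by
      have := congrArg (fun z : H →L[ℂ] H => z (u y)) hW2
      simpa using this
    rw [ContinuousLinearMap.mul_apply, ContinuousLinearMap.mul_apply, e1]
    nth_rewrite 1 [ContinuousLinearMap.star_eq_adjoint]
    rw [ContinuousLinearMap.adjoint_inner_left, e2]
  have hRact : ∀ (R c : H →L[ℂ] H) (i : Fin n), R (ζ i) = c (ζ i) →
      (star W * R * W) (star W (ζ i)) = (star W * c * W) (star W (ζ i)) := by
    intro R c i h
    have e1 : W (star W (ζ i)) = ζ i := by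
      have := congrArg (fun z : H →L[ℂ] H => z (ζ i)) hW2
      simpa using this
    simp only [ContinuousLinearMap.mul_apply]
    rw [e1, h]
  intro i j y hy
  by_cases hij : i = j
  · rw [if_pos hij]
    subst hij
    set G' : Set (H →L[ℂ] H) := (fun g => star W * g * W) '' symm A with hG'
    have hGb' : BG G' := hGb.conj hW1 hW2
    have hG'N : ∀ h ∈ G', h ∈ N := by
      rintro _ ⟨g, hg, rfl⟩
      exact hWG g hg
    obtain ⟨E, -, hE⟩ := IsM.ex hGb' (f := fun h => h * y * h) (d := ‖y‖) (fun g hg => by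
      have := hGb'.norm_le hg
      calc ‖g * y * g‖ ≤ (‖g‖ * ‖y‖) * ‖g‖ := by
            refine (norm_mul_le _ _).trans ?_
            gcongr
            exact norm_mul_le _ _
        _ ≤ (1 * ‖y‖) * 1 := by gcongr
        _ = ‖y‖ := by ring)
    have hEN : E ∈ N := hE.mem fun h hh => mul_mem (mul_mem (hG'N h hh) hy) (hG'N h hh)
    have hEc : ∀ k ∈ G', k * E = E * k := by
      intro k hk
      have h3 : k * E * k = E := by
        refine ((hE.mul_left k).mul_right k).uniq ?_
        refine (hE.shift hk).congr fun g hg => ?_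
        rw [hGb'.comm g hg k hk]
        simp only [mul_assoc]
        rw [hGb'.comm k hk g hg]
      calc k * E = k * (k * E * k) := by rw [h3]
        _ = (k * k) * E * k := by simp only [mul_assoc]
        _ = E * k := by rw [hGb'.sq k hk, one_mul]
    set b : H →L[ℂ] H := W * E * star W with hb
    have hbA : b ∈ A := by
      apply hmasa
      · rw [hb, hback]; exact hEN
      · intro g hg
        have h4 : star W * g * W * E = E * (star W * g * W) := hEc _ ⟨g, hg, rfl⟩
        have h5 : W * (star W * g * W * E) * star W = W * (E * (star W * g * W)) * star W := by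
          rw [h4]
        have e1 : W * (star W * g * W * E) * star W = g * b := by
          rw [hb]
          calc W * (star W * g * W * E) * star W = (W * star W) * g * (W * E * star W) := by
                simp only [mul_assoc]
            _ = g * (W * E * star W) := by rw [hW2, one_mul]
        have e2 : W * (E * (star W * g * W)) * star W = b * g := by
          rw [hb]
          calc W * (E * (star W * g * W)) * star W = (W * E * star W) * g * (W * star W) := by
                simp only [mul_assoc]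
            _ = W * E * star W * g := by rw [hW2, mul_one]
        rw [e1, e2] at h5
        exact h5
    -- invariance of the vector state
    have hinv : ∀ h ∈ G', ⟪star W (ζ i), (h * y * h) (star W (ζ i))⟫_ℂ =
        ⟪star W (ζ i), y (star W (ζ i))⟫_ℂ := by
      rintro _ ⟨g, hg, rfl⟩
      obtain ⟨R, hR, hRc⟩ := RG_ex hM hA hrA hζ (fun _ => g) (fun _ => hg)
      have h1 := hRact R g i (hRc i)
      have h2 := hWR R hR
      set u : H →L[ℂ] H := star W * R * W with hu
      set h : H →L[ℂ] H := star W * g * W with hh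
      have hhG : h ∈ G' := ⟨g, hg, rfl⟩
      have hhs : star h = h := hGb'.adj h hhG
      have hus : star u * u = 1 := by
        rw [hu, star_mul, star_mul, star_star, hR.2.1]
        calc star W * (R * W) * (star W * R * W) = star W * R * (W * star W) * R * W := by
              simp only [mul_assoc]
          _ = star W * (R * R) * W := by rw [hW2, mul_one]; simp only [mul_assoc]
          _ = 1 := by rw [hR.2.2.1, mul_one, hW1]
      have e1 : ⟪star W (ζ i), (h * y * h) (star W (ζ i))⟫_ℂ =
          ⟪h (star W (ζ i)), y (h (star W (ζ i)))⟫_ℂ := by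
        simp only [ContinuousLinearMap.mul_apply]
        nth_rewrite 1 [← hhs]
        rw [ContinuousLinearMap.star_eq_adjoint h, ContinuousLinearMap.adjoint_inner_right]
      have hyu : u * y = y * u := comm_of_mem h2 hy
      have e2 : ⟪u (star W (ζ i)), y (u (star W (ζ i)))⟫_ℂ =
          ⟪star W (ζ i), y (star W (ζ i))⟫_ℂ := by
        have e3 : y (u (star W (ζ i))) = u (y (star W (ζ i))) := by
          have := congrArg (fun z : H →L[ℂ] H => z (star W (ζ i))) hyu
          simpa using this.symm
        have e4 : star u (u (y (star W (ζ i)))) = y (star W (ζ i)) := by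
          have := congrArg (fun z : H →L[ℂ] H => z (y (star W (ζ i)))) hus
          simpa using this
        rw [e3, ← ContinuousLinearMap.adjoint_inner_right, ← ContinuousLinearMap.star_eq_adjoint,
          e4]
      rw [e1, ← h1, e2]
    have hψ : ⟪star W (ζ i), E (star W (ζ i))⟫_ℂ = ⟪star W (ζ i), y (star W (ζ i))⟫_ℂ :=
      hE.coef hinv
    have hEb : E = star W * b * W := by rw [hb, hback]
    have h6 : ⟪star W (ζ i), E (star W (ζ i))⟫_ℂ = trF ξM (b * r) := by
      rw [hEb, hinner, hζ i i b (hA.le _ hbA), if_pos rfl]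
    have h7 : trF ξN (E * (star W * r * W)) = trF ξM (b * r) := by
      have := htrA (b * r) (mul_mem hbA hrA)
      rw [← this, hEb, hconj]
    have hr'N : star W * r * W ∈ N := hWA r hrA
    have h8 : trF ξN (E * (star W * r * W)) = trF ξN (y * (star W * r * W)) := by
      refine IsM.tr hN.norm (hE.mul_right (star W * r * W)) (d := ‖y‖) ?_ ?_
      · intro g hg
        have := hGb'.norm_le hg
        have := norm_pr_le hr'
        calc ‖g * y * g * (star W * r * W)‖ ≤ ((‖g‖ * ‖y‖) * ‖g‖) * ‖star W * r * W‖ := by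
              refine (norm_mul_le _ _).trans ?_
              gcongr
              refine (norm_mul_le _ _).trans ?_
              gcongr
              exact norm_mul_le _ _
          _ ≤ ((1 * ‖y‖) * 1) * 1 := by gcongr
          _ = ‖y‖ := by ring
      · rintro _ ⟨g, hg, rfl⟩
        set h : H →L[ℂ] H := star W * g * W with hh
        have hhG : h ∈ G' := ⟨g, hg, rfl⟩
        have hhN := hG'N h hhG
        have hhr : h * (star W * r * W) = (star W * r * W) * h := by
          rw [hh, hconj, hconj, hA.ab _ hg.1 _ hrA]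
        have e1 : h * y * h * (star W * r * W) = h * (y * (star W * r * W) * h) := by
          rw [mul_assoc (h * y), hhr]
          simp only [mul_assoc]
        rw [e1, hN.tracial h hhN _ (mul_mem (mul_mem hy hr'N) hhN), mul_assoc _ h h,
          hGb'.sq h hhG, mul_one]
    rw [← hψ, h6, ← h7, h8]
  · rw [if_neg hij]
    -- orthogonality
    obtain ⟨R, hR, hRc⟩ := RG_ex hM hA hrA hζ (fun k => if k = i then -1 else 1) (by
      intro k
      split_ifs
      · refine ⟨neg_mem (one_mem A), by rw [star_neg, star_one], by rw [neg_mul_neg, mul_one]⟩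
      · exact hGb.one)
    have h2 := hWR R hR
    set u : H →L[ℂ] H := star W * R * W with hu
    have hi : u (star W (ζ i)) = - star W (ζ i) := by
      rw [hu, hRact R (-1) i (by rw [hRc i, if_pos rfl])]
      have : star W * (-1) * W = -1 := by rw [mul_neg, mul_one, neg_mul, hW1]
      rw [this]; rfl
    have hj : u (star W (ζ j)) = star W (ζ j) := by
      rw [hu, hRact R 1 j (by rw [hRc j, if_neg (Ne.symm hij)])]
      rw [mul_one, hW1]; rfl
    have hus : star u = u := by
      rw [hu, star_mul, star_mul, star_star, hR.2.1, mul_assoc]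
    have hyu : u * y = y * u := comm_of_mem h2 hy
    have e3 : u (y (star W (ζ i))) = y (u (star W (ζ i))) := by
      have := congrArg (fun z : H →L[ℂ] H => z (star W (ζ i))) hyu
      simpa using this
    have h3 : ⟪star W (ζ j), y (star W (ζ i))⟫_ℂ = - ⟪star W (ζ j), y (star W (ζ i))⟫_ℂ := by
      calc ⟪star W (ζ j), y (star W (ζ i))⟫_ℂ = ⟪u (star W (ζ j)), y (star W (ζ i))⟫_ℂ := by
            rw [hj]
        _ = ⟪star W (ζ j), u (y (star W (ζ i)))⟫_ℂ := by
            rw [← ContinuousLinearMap.adjoint_inner_right, ← ContinuousLinearMap.star_eq_adjoint,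
              hus]
        _ = - ⟪star W (ζ j), y (star W (ζ i))⟫_ℂ := by
            rw [e3, hi, map_neg, inner_neg_right]
    have h4 : (2 : ℂ) * ⟪star W (ζ j), y (star W (ζ i))⟫_ℂ = 0 := by
      rw [two_mul]
      nth_rewrite 1 [h3]
      exact neg_add_cancel _
    rcases mul_eq_zero.1 h4 with h5 | h5
    · norm_num at h5
    · exact h5

end H203R3.CC
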