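import Mathlib
import Pool.Agent.H203R3.CC.Main

/-!
Coupling constants of close II₁ factors.
-/

open scoped ComplexOrder InnerProductSpace ComplexConjugate ENNReal
open Finset Filter Topology

noncomputable section

namespace H203R3.CC

open H759R2.Kad H710R2.DP

variable {H : Type} [NormedAddCommGroup H] [InnerProductSpace ℂ H] [CompleteSpace H]

/-- Reduction to families with a single projection of dyadic trace. -/
theorem reduce {M : VonNeumannAlgebra H} {ξ : ℕ → H} (hM : IsII1 M ξ) {n : ℕ}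
    {p : Fin n → (H →L[ℂ] H)} {ζ : Fin n → H} (h : IsEmb M ξ p ζ) (m : ℕ) :
    ∃ r ∈ M, IsPr r ∧ trF ξ r = 1 / 2 ^ m ∧ ∃ (n' : ℕ) (ζ' : Fin n' → H), EqE M ξ r ζ' ∧
      ∑ i, (trF ξ (p i)).re ≤ n' / 2 ^ m + n / 2 ^ m := by
  classical
  obtain ⟨e, he⟩ := dyad hM m
  have hepr : ∀ j, IsPr (e j j) := fun j => ⟨he.adj j j, by rw [he.mul, if_pos rfl]⟩
  let o : Fin (2 ^ m) := ⟨0, by positivity⟩
  have h2 : (0 : ℝ) < 2 ^ m := by positivity
  have hpi : ∀ i, IsPr (p i) := fun i => ⟨h.adj i, h.idem i⟩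
  have hex : ∀ i, ∃ s : Finset (Fin (2 ^ m)), (trF ξ (p i)).re ≤ s.card / 2 ^ m + 1 / 2 ^ m ∧
      ∃ v ∈ M, star v * v = ∑ j ∈ s, e j j ∧ p i * v = v := by
    intro i
    set t : ℝ := (trF ξ (p i)).re with ht
    have ht0 : 0 ≤ t := tr_pr_nonneg (hpi i)
    have ht1 : t ≤ 1 := (Complex.re_le_norm _).trans
      ((norm_trF_le hM.norm (p i)).trans (norm_pr_le (hpi i)))
    set k : ℕ := ⌊2 ^ m * t⌋₊ with hk
    have hk1 : (k : ℝ) ≤ 2 ^ m * t := Nat.floor_le (by positivity)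
    have hk2 : 2 ^ m * t < k + 1 := Nat.lt_floor_add_one _
    have hkL : k ≤ 2 ^ m := by
      have : (k : ℝ) ≤ 2 ^ m := hk1.trans (by nlinarith)
      exact_mod_cast this
    obtain ⟨s, -, hs⟩ := Finset.exists_subset_card_eq (s := (Finset.univ : Finset (Fin (2 ^ m))))
      (n := k) (by simpa using hkL)
    refine ⟨s, ?_, ?_⟩
    · rw [hs, ← add_div, le_div_iff₀ h2]
      linarith
    · apply sub_of_le hM (h.mem i) (sum_mem fun j _ => he.mem j j) (hpi i) (MU_pr he s)
      rw [trF_sum hM.norm, Finset.sum_congr rfl fun j _ => MU_tr hM he j, Finset.sum_const,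
        hs, nsmul_eq_mul]
      have : ((k : ℂ) * (1 / ((2 ^ m : ℕ) : ℂ))) = (((k : ℝ) / 2 ^ m : ℝ) : ℂ) := by
        push_cast; ring
      rw [this, Complex.ofReal_re, div_le_iff₀ h2]
      linarith
  choose s hs v hv hv1 hv2 using hex
  let T : Type := Σ i : Fin n, {j // j ∈ s i}
  let ζT : T → H := fun a => (e o a.2.1 * star (v a.1)) (ζ a.1)
  have hT : ∀ a b : T, ∀ x ∈ M, ⟪ζT b, x (ζT a)⟫_ℂ = if a = b then trF ξ (x * e o o) else 0 := by
    rintro ⟨i, k, hk⟩ ⟨j, l, hl⟩ x hx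
    have e1 : ⟪ζT ⟨j, l, hl⟩, x (ζT ⟨i, k, hk⟩)⟫_ℂ =
        ⟪ζ j, (v j * e l o * x * (e o k * star (v i))) (ζ i)⟫_ℂ := by
      have e2 : v j * e l o = star (e o l * star (v j)) := by
        rw [star_mul, star_star, he.adj]
      rw [e2]
      simp only [ContinuousLinearMap.mul_apply]
      rw [ContinuousLinearMap.star_eq_adjoint (e o l * star (v j)),
        ContinuousLinearMap.adjoint_inner_right]
      rfl
    have hvs : ∀ i, star (v i) ∈ M := fun i => star_mem (S := VonNeumannAlgebra H) (hv i)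
    rw [e1, h.inner i j _ (mul_mem (mul_mem (mul_mem (hv j) (he.mem l o)) hx)
      (mul_mem (he.mem o k) (hvs i)))]
    by_cases hij : i = j
    · subst hij
      rw [if_pos rfl]
      have e3 : star (v i) * p i = star (v i) := by
        have := congrArg star (hv2 i)
        rwa [star_mul, h.adj] at this
      have e4 : v i * e l o * x * (e o k * star (v i)) * p i =
          (v i * e l o) * (x * (e o k * star (v i))) := by
        calc v i * e l o * x * (e o k * star (v i)) * p i =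
            (v i * e l o) * (x * (e o k * (star (v i) * p i))) := by simp only [mul_assoc]
          _ = _ := by rw [e3]
      rw [e4, hM.tracial _ (mul_mem (hv i) (he.mem l o)) _
        (mul_mem hx (mul_mem (he.mem o k) (hvs i)))]
      have e5 : x * (e o k * star (v i)) * (v i * e l o) =
          x * (e o k * (star (v i) * v i) * e l o) := by simp only [mul_assoc]
      have e6 : e o k * (∑ j ∈ s i, e j j) = e o k := by
        rw [Finset.mul_sum, Finset.sum_eq_single k]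
        · rw [he.mul, if_pos rfl]
        · intro j _ hj
          rw [he.mul, if_neg hj.symm]
        · intro h0; exact absurd hk h0
      rw [e5, hv1, e6, he.mul]
      by_cases hkl : k = l
      · subst hkl
        rw [if_pos rfl, if_pos rfl]
      · rw [if_neg hkl, mul_zero, trF_zero, if_neg]
        intro h0
        have h0' := (Sigma.mk.inj_iff.1 h0).2
        exact hkl (congrArg Subtype.val (eq_of_heq h0'))
    · rw [if_neg hij, if_neg]
      intro h0
      exact hij (Sigma.mk.inj_iff.1 h0).1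
  let eq := Fintype.equivFin T
  refine ⟨e o o, he.mem o o, hepr o, ?_, Fintype.card T, fun a => ζT (eq.symm a), ?_, ?_⟩
  · rw [MU_tr hM he]; push_cast; rfl
  · intro a b x hx
    rw [hT _ _ x hx]
    simp only [EmbeddingLike.apply_eq_iff_eq]
  · have hcard : (Fintype.card T : ℝ) = ∑ i, ((s i).card : ℝ) := by
      have : Fintype.card T = ∑ i, (s i).card := by
        simp only [T, Fintype.card_sigma, Fintype.card_coe]
      rw [this]; push_cast; rfl
    calc ∑ i, (trF ξ (p i)).re ≤ ∑ i, (((s i).card : ℝ) / 2 ^ m + 1 / 2 ^ m) :=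
          Finset.sum_le_sum fun i _ => hs i
      _ = Fintype.card T / 2 ^ m + n / 2 ^ m := by
          rw [Finset.sum_add_distrib, ← Finset.sum_div, hcard, Finset.sum_const,
            Finset.card_univ, Fintype.card_fin, nsmul_eq_mul, mul_one_div]

/-- One inequality. -/
theorem coupling_le {M N : VonNeumannAlgebra H} {ξM ξN : ℕ → H} (hM : IsII1 M ξM)
    (hN : IsII1 N ξN) {γ : ℝ} (hγ : γ ≤ 1 / 2000000) (hMN : Nr M N γ) (hNM : Nr N M γ)
    (hMN' : Nr M.commutant N.commutant γ) : coupling M ξM ≤ coupling N ξN := by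
  unfold coupling
  refine iSup_le fun n => iSup_le fun p => iSup_le fun ζ => iSup_le fun h => ?_
  refine ENNReal.le_of_forall_pos_le_add fun ε hε _ => ?_
  -- choose the size of the pieces
  obtain ⟨m, hm⟩ := exists_pow_lt_of_lt_one (show (0 : ℝ) < ε / (n + 1) by positivity)
    (show (1 / 2 : ℝ) < 1 by norm_num)
  have hm' : (n : ℝ) / 2 ^ m ≤ ε := by
    have e1 : (n : ℝ) / 2 ^ m = n * (1 / 2) ^ m := by rw [one_div_pow]; ring
    rw [e1]
    calc (n : ℝ) * (1 / 2) ^ m ≤ (n + 1) * (ε / (n + 1)) := by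
          gcongr
          linarith
      _ = ε := by field_simp
  obtain ⟨r, hrM, hr, hrt, n', ζ', hζ', hle⟩ := reduce hM h m
  obtain ⟨r', hr'N, hr', hrt', η, hη⟩ := main_step hM hN hγ hMN hNM hMN' hrM hr hζ'
  have hemb : IsEmb N ξN (fun _ : Fin n' => r') η :=
    ⟨fun _ => hr'N, fun _ => hr'.1, fun _ => hr'.2, hη⟩
  have hsum : ∑ _i : Fin n', (trF ξN r').re = n' / 2 ^ m := by
    rw [Finset.sum_const, Finset.card_univ, Fintype.card_fin, nsmul_eq_mul, hrt', hrt]
    have : (1 : ℂ) / 2 ^ m = ((1 / 2 ^ m : ℝ) : ℂ) := by push_cast; rfl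
    rw [this, Complex.ofReal_re, mul_one_div]
  calc ENNReal.ofReal (∑ i, (trF ξM (p i)).re)
      ≤ ENNReal.ofReal (n' / 2 ^ m + n / 2 ^ m) := ENNReal.ofReal_le_ofReal hle
    _ = ENNReal.ofReal (n' / 2 ^ m) + ENNReal.ofReal (n / 2 ^ m) :=
        ENNReal.ofReal_add (by positivity) (by positivity)
    _ ≤ _ + ε := by
        refine add_le_add ?_ ?_
        · rw [← hsum]
          exact le_iSup_of_le n' (le_iSup_of_le (fun _ => r') (le_iSup_of_le η
            (le_iSup_of_le hemb le_rfl)))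
        · rw [← ENNReal.ofReal_coe_nnreal]
          exact ENNReal.ofReal_le_ofReal hm'

/-- Near containment from the Hausdorff distance of the unit balls. -/
theorem Nr_of_hausdorff {M N : VonNeumannAlgebra H} {δ : ℝ}
    (h : Metric.hausdorffDist {x : H →L[ℂ] H | x ∈ M ∧ ‖x‖ ≤ 1}
      {x : H →L[ℂ] H | x ∈ N ∧ ‖x‖ ≤ 1} < δ) : Nr M N δ := by
  have hb : ∀ M : VonNeumannAlgebra H, Bornology.IsBounded {x : H →L[ℂ] H | x ∈ M ∧ ‖x‖ ≤ 1} := by
    intro M
    refine (Metric.isBounded_closedBall (x := (0 : H →L[ℂ] H)) (r := 1)).subset ?_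
    rintro x ⟨-, hx⟩
    simpa using hx
  have hne : ∀ M : VonNeumannAlgebra H, {x : H →L[ℂ] H | x ∈ M ∧ ‖x‖ ≤ 1}.Nonempty :=
    fun M => ⟨0, zero_mem M, by simp⟩
  have hfin := Metric.hausdorffEDist_ne_top_of_nonempty_of_bounded (hne M) (hne N) (hb M) (hb N)
  intro x hx
  by_cases h0 : x = 0
  · exact ⟨0, zero_mem N, by simp [h0]⟩
  have hx0 : 0 < ‖x‖ := norm_pos_iff.2 h0
  have h1 : ((‖x‖⁻¹ : ℝ) : ℂ) • x ∈ {x : H →L[ℂ] H | x ∈ M ∧ ‖x‖ ≤ 1} := by
    refine ⟨smul_mem' _ hx, ?_⟩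
    rw [norm_smul, Complex.norm_real, norm_inv, norm_norm, inv_mul_cancel₀ hx0.ne']
  obtain ⟨y, hy, hxy⟩ := Metric.exists_dist_lt_of_hausdorffDist_lt h1 h hfin
  refine ⟨((‖x‖ : ℝ) : ℂ) • y, smul_mem' _ hy.1, ?_⟩
  have e1 : x - ((‖x‖ : ℝ) : ℂ) • y = ((‖x‖ : ℝ) : ℂ) • (((‖x‖⁻¹ : ℝ) : ℂ) • x - y) := by
    rw [smul_sub, smul_smul]
    congr 1
    rw [← Complex.ofReal_mul, mul_inv_cancel₀ hx0.ne', Complex.ofReal_one, one_smul]
  rw [e1, norm_smul, Complex.norm_real, norm_norm, mul_comm]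
  rw [dist_eq_norm] at hxy
  gcongr

theorem Nr.mono {M N : VonNeumannAlgebra H} {γ γ' : ℝ} (h : Nr M N γ) (hγ : γ ≤ γ') :
    Nr M N γ' := by
  intro x hx
  obtain ⟨y, hy, hxy⟩ := h x hx
  exact ⟨y, hy, hxy.trans (by gcongr)⟩

theorem one_le_KK : 1 ≤ KK := by unfold KK; norm_num

/-- The coupling constants of close II₁ factors agree, with a universal bound. -/
theorem main :
    ∃ δ : ℝ, 0 < δ ∧ ∀ (H : Type) [NormedAddCommGroup H] [InnerProductSpace ℂ H]
      [CompleteSpace H] (M N : VonNeumannAlgebra H) (ξ η : ℕ → H), IsII1 M ξ → IsII1 N η →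
      Metric.hausdorffDist {x : H →L[ℂ] H | x ∈ M ∧ ‖x‖ ≤ 1}
        {x : H →L[ℂ] H | x ∈ N ∧ ‖x‖ ≤ 1} < δ →
      coupling M ξ = coupling N η := by
  have hK := KK_pos
  have hK1 := one_le_KK
  set δ : ℝ := 1 / 2000000 / (2 * KK) with hδ
  have hδ0 : 0 < δ := by positivity
  have hδ2 : KK * (2 * δ) = 1 / 2000000 := by rw [hδ]; field_simp
  have hδ1 : δ ≤ 1 / 2000000 := by nlinarith
  refine ⟨δ, hδ0, ?_⟩
  intro H _ _ _ M N ξ η hM hN h
  have h1 : Nr M N δ := Nr_of_hausdorff h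
  have h2 : Nr N M δ := Nr_of_hausdorff (by rw [Metric.hausdorffDist_comm]; exact h)
  have h3 : Nr N.commutant M.commutant (1 / 2000000) := hδ2 ▸ h1.comm hδ0.le
  have h4 : Nr M.commutant N.commutant (1 / 2000000) := hδ2 ▸ h2.comm hδ0.le
  exact le_antisymm (coupling_le hM hN le_rfl (h1.mono hδ1) (h2.mono hδ1) h4)
    (coupling_le hN hM le_rfl (h2.mono hδ1) (h1.mono hδ1) h3)

end H203R3.CC
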